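import Pool.Agent.H294R3.CohSys.Main

/-!
# Rank two coherent systems with canonical determinant: definitions and proof
-/

open scoped WithZero Matrix
open WithZero

set_option linter.unusedSectionVars false
set_option linter.unusedVariables false

namespace Pool.Agent.W525.BNK

open Pool.Agent.Helper395.CS hiding genus
open Pool.Agent.Helper395.BC
open Pool.Agent.H294R3.CohSys

/-- The curve with function field `K` is Brill-Noether general: all line bundles `L` have
non-negative Brill-Noether number `g - (r + 1) (g - d + r)`, where `d = deg L`, `r + 1 = h⁰(L)`. -/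
def IsBrillNoetherGeneral (K : Type) [Field K] [Algebra ℂ K] : Prop :=
  ∀ L : LineBundle K, 0 ≤ (genus K : ℤ) - (Module.finrank ℂ (H0 L) : ℤ) *
    (genus K - L.degree + (Module.finrank ℂ (H0 L) - 1))

variable {K : Type} [Field K] [Algebra ℂ K]

/-- The line bundle `L` is isomorphic to the canonical bundle: it has degree `2 g - 2` and
`h⁰(L) = g` (by the theorem of Riemann-Roch this characterises the canonical bundle). -/
def IsCanonical (L : LineBundle K) : Prop :=
  L.degree = 2 * (genus K : ℤ) - 2 ∧ Module.finrank ℂ (H0 L) = genus K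

/-- a canonical line bundle is isomorphic to `can` -/
theorem exists_canonical_mul (hK : IsCurve K) (hg : genus K ≠ 0) {L : LineBundle K}
    (hL : IsCanonical L) : ∃ f : K, f ≠ 0 ∧ ∀ v s, s ∈ L.stalk v ↔ f * s ∈ (can hK hg).stalk v := by
  obtain ⟨hd, h0⟩ := hL
  obtain ⟨-, h1⟩ := rrL hK hg L
  have h2 : Module.finrank ℂ (H0 (lmul (can hK hg) (linv L))) = 1 := by
    rw [hd, h0] at h1
    omega
  have h3 : H0 (lmul (can hK hg) (linv L)) ≠ ⊥ := by
    intro h
    rw [h, finrank_bot] at h2
    omega
  obtain ⟨f, hf, hf0⟩ := (Submodule.ne_bot_iff _).1 h3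
  have h4 : ∀ v s, s ∈ L.stalk v → f * s ∈ (can hK hg).stalk v := by
    intro v s hs
    have h5 := (mem_lmul_linv (can hK hg) L v f).1 (hf v)
    have h5' : v.val (f * (L.frame v : K)) ≤ v.val ((can hK hg).frame v : K) := h5
    have hs' : v.val s ≤ v.val (L.frame v : K) := hs
    change v.val (f * s) ≤ v.val ((can hK hg).frame v : K)
    rw [map_mul] at h5' ⊢
    exact (mul_le_mul_right hs' _).trans h5'
  refine ⟨f, hf0, fun v s => ⟨h4 v s, fun h => ?_⟩⟩
  have h6 := lstalk_eq_of_degree_eq hK (L := lmul L (lprin hK (Units.mk0 f hf0)))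
    (M := can hK hg) (fun v s hs => by
      rw [mem_lmul] at hs
      change v.val s ≤ v.val (L.frame v : K) * v.val f at hs
      have h7 := h4 v (f⁻¹ * s) (by
        change v.val (f⁻¹ * s) ≤ v.val (L.frame v : K)
        rw [map_mul, map_inv₀, inv_mul_le_iff₀ (zero_lt_iff.2 (v.val_ne_zero hf0)), mul_comm]
        exact hs)
      rwa [mul_inv_cancel_left₀ hf0] at h7) (by
      rw [lmul_degree, lprin_degree, add_zero, hd, can_degree]) v
  rw [← h6, mem_lmul] at h
  change v.val (f * s) ≤ v.val (L.frame v : K) * v.val f at h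
  rw [map_mul, mul_comm, mul_le_mul_iff_left₀ (zero_lt_iff.2 (v.val_ne_zero hf0))] at h
  exact h

theorem finrank_canonical_sub (hK : IsCurve K) (hg : genus K ≠ 0) {L : LineBundle K}
    (hL : IsCanonical L) (A : LineBundle K) :
    Module.finrank ℂ (H0 (lmul L (linv A))) = Module.finrank ℂ (H0 (lmul (can hK hg) (linv A))) := by
  obtain ⟨f, hf0, hf⟩ := exists_canonical_mul hK hg hL
  let e : H0 (lmul L (linv A)) ≃ₗ[ℂ] H0 (lmul (can hK hg) (linv A)) :=
    { toFun := fun s => ⟨f * s.1, fun v => by
        have h := (mem_lmul_linv L A v s.1).1 (s.2 v)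
        rw [mem_lmul_linv, mul_assoc]
        exact (hf v _).1 h⟩
      invFun := fun s => ⟨f⁻¹ * s.1, fun v => by
        have h := (mem_lmul_linv (can hK hg) A v s.1).1 (s.2 v)
        rw [mem_lmul_linv, hf, ← mul_assoc, ← mul_assoc, mul_inv_cancel₀ hf0, one_mul]
        exact h⟩
      left_inv := fun s => Subtype.ext (inv_mul_cancel_left₀ hf0 _)
      right_inv := fun s => Subtype.ext (mul_inv_cancel_left₀ hf0 _)
      map_add' := fun s t => Subtype.ext (mul_add _ _ _)
      map_smul' := fun c s => Subtype.ext (mul_smul_comm _ _ _) }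
  exact e.finrank_eq

/-- the line bundle of a bundle of rank one -/
theorem mem_det_one (F : Bundle K 1) (v : Point K) (s : Fin 1 → K) :
    s ∈ F.stalk v ↔ s 0 ∈ F.det.stalk v := by
  have h1 : ((F.det.frame v : Kˣ) : K) = (F.frame v).1 0 0 := by
    change (F.frame v).1.det = _
    rw [Matrix.det_fin_one]
  have h2 : (F.frame v).1 0 0 ≠ 0 := by
    rw [← h1]
    exact (F.det.frame v).ne_zero
  have h3 : ∀ x : Fin 1 → K, ((F.frame v)⁻¹.1 *ᵥ x) 0 = ((F.frame v).1 0 0)⁻¹ * x 0 := by
    intro x
    have h4 := congrFun (gl_mulVec_inv (F.frame v) x) 0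
    rw [Matrix.mulVec, dotProduct, Fin.sum_univ_one] at h4
    rw [← h4, ← mul_assoc, inv_mul_cancel₀ h2, one_mul]
  change (∀ i, v.val (((F.frame v)⁻¹.1 *ᵥ s) i) ≤ 1) ↔ v.val (s 0) ≤ v.val ((F.det.frame v : Kˣ) : K)
  rw [Fin.forall_fin_one, h3, h1, map_mul, map_inv₀,
    inv_mul_le_iff₀ (zero_lt_iff.2 (v.val_ne_zero h2)), mul_one]

theorem det_one_degree (F : Bundle K 1) : F.det.degree = F.degree := rfl

/-- the determinant with the generic fibre of a line subbundle -/
noncomputable def delta2 (f : Fin 2 → K) : (Fin 2 → K) →ₗ[ℂ] K where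
  toFun s := f 0 * s 1 - f 1 * s 0
  map_add' s t := by simp only [Pi.add_apply]; ring
  map_smul' c s := by
    simp only [Pi.smul_apply, RingHom.id_apply, mul_smul_comm, smul_sub]

theorem delta2_apply (f s : Fin 2 → K) : delta2 f s = f 0 * s 1 - f 1 * s 0 := rfl

/-- the determinant of two sections is a section of the determinant bundle -/
theorem det_mem {E : Bundle K 2} {v : Point K} {a s : Fin 2 → K} (ha : a ∈ E.stalk v)
    (hs : s ∈ E.stalk v) : a 0 * s 1 - a 1 * s 0 ∈ E.det.stalk v := by
  change v.val (a 0 * s 1 - a 1 * s 0) ≤ v.val ((E.frame v).1.det)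
  have h1 : a 0 * s 1 - a 1 * s 0 = (E.frame v).1.det *
      (((E.frame v)⁻¹.1 *ᵥ a) 0 * ((E.frame v)⁻¹.1 *ᵥ s) 1 -
        ((E.frame v)⁻¹.1 *ᵥ a) 1 * ((E.frame v)⁻¹.1 *ᵥ s) 0) := by
    have h2 := gl_mulVec_inv (E.frame v) a
    have h3 := gl_mulVec_inv (E.frame v) s
    set x := (E.frame v)⁻¹.1 *ᵥ a
    set y := (E.frame v)⁻¹.1 *ᵥ s
    rw [← h2, ← h3, Matrix.det_fin_two]
    simp only [Matrix.mulVec, dotProduct, Fin.sum_univ_two]
    ring
  rw [h1, map_mul]
  refine mul_le_of_le_one_right' ?_
  refine (Valuation.map_sub _ _ _).trans (max_le ?_ ?_) <;>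
  · rw [map_mul]
    exact mul_le_one' (ha _) (hs _)

/-- bounding the dimension of a space of sections by means of a line subbundle -/
theorem finrank_le_add (hK : IsCurve K) (hg : genus K ≠ 0) {E : Bundle K 2} {F : Bundle K 1}
    {j : (Fin 1 → K) →ₗ[K] (Fin 2 → K)} (hF : IsSubbundle F E j) (V : Submodule ℂ (Fin 2 → K))
    (hV : V ≤ E.sections) :
    Module.finrank ℂ V ≤ Module.finrank ℂ (V.comap (j.restrictScalars ℂ)) +
      Module.finrank ℂ (H0 (lmul E.det (linv F.det))) := by
  have hfE : FiniteDimensional ℂ E.sections := (rr hK hg E).1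
  have hfV : FiniteDimensional ℂ V := Submodule.finiteDimensional_of_le hV
  have hfL : FiniteDimensional ℂ (H0 (lmul E.det (linv F.det))) := H0_finite hK hg _
  set f := j (fun _ => 1) with hf
  have hjz : ∀ z : Fin 1 → K, j z = z 0 • f := by
    intro z
    rw [hf, ← map_smul]
    congr 1
    funext i
    rw [Subsingleton.elim i 0, Pi.smul_apply, smul_eq_mul, mul_one]
  have hf0 : f ≠ 0 := by
    intro h
    have h1 := hF.injective (a₁ := fun _ => 1) (a₂ := 0) (by rw [map_zero]; exact h)
    have := congrFun h1 0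
    simp at this
  let φ : V →ₗ[ℂ] K := (delta2 f).comp V.subtype
  have hφ : ∀ s : V, φ s ∈ H0 (lmul E.det (linv F.det)) := by
    intro s v
    rw [mem_lmul_linv]
    have h1 : j (fun _ => (F.det.frame v : K)) ∈ E.stalk v := by
      rw [← hF.stalk, mem_det_one]
      exact le_refl (v.val (F.det.frame v : K))
    have h2 := det_mem h1 (hV s.2 v)
    rw [hjz] at h2
    have h3 : φ s * (F.det.frame v : K) =
        ((F.det.frame v : K) • f) 0 * s.1 1 - ((F.det.frame v : K) • f) 1 * s.1 0 := by
      change (f 0 * s.1 1 - f 1 * s.1 0) * (F.det.frame v : K) = _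
      simp only [Pi.smul_apply, smul_eq_mul]
      ring
    rw [h3]
    exact h2
  have h1 : Module.finrank ℂ (LinearMap.range φ) ≤
      Module.finrank ℂ (H0 (lmul E.det (linv F.det))) := by
    apply Submodule.finrank_mono
    rintro _ ⟨s, rfl⟩
    exact hφ s
  have h2 : Module.finrank ℂ (LinearMap.ker φ) ≤
      Module.finrank ℂ (V.comap (j.restrictScalars ℂ)) := by
    have hinj : Function.Injective (j.restrictScalars ℂ) := hF.injective
    have h3 : (LinearMap.ker φ).map V.subtype ≤
        (V.comap (j.restrictScalars ℂ)).map (j.restrictScalars ℂ) := by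
      rintro _ ⟨s, hs, rfl⟩
      have hs' : f 0 * s.1 1 - f 1 * s.1 0 = 0 := hs
      have h4 : ∃ z : K, (s : Fin 2 → K) = z • f := by
        by_cases h0 : f 0 = 0
        · have h10 : f 1 ≠ 0 := by
            intro h10
            apply hf0
            funext i
            fin_cases i
            · exact h0
            · exact h10
          refine ⟨s.1 1 / f 1, ?_⟩
          rw [h0, zero_mul, zero_sub, neg_eq_zero] at hs'
          have h5 : s.1 0 = 0 := (mul_eq_zero.1 hs').resolve_left h10
          funext i
          fin_cases i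
          · simp [h0, h5]
          · simp [h10]
        · refine ⟨s.1 0 / f 0, ?_⟩
          funext i
          fin_cases i
          · simp [h0]
          · have h5 : s.1 1 = s.1 0 / f 0 * f 1 := by
              field_simp
              linear_combination hs'
            simpa using h5
      obtain ⟨z, hz⟩ := h4
      refine ⟨fun _ => z, ?_, ?_⟩
      · change j (fun _ => z) ∈ V
        rw [hjz, ← hz]
        exact s.2
      · change j (fun _ => z) = s.1
        rw [hjz, ← hz]
    have hfin : FiniteDimensional ℂ (V.comap (j.restrictScalars ℂ)) := by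
      have : FiniteDimensional ℂ ((V.comap (j.restrictScalars ℂ)).map (j.restrictScalars ℂ)) :=
        Submodule.finiteDimensional_of_le (Submodule.map_comap_le _ _)
      exact (Submodule.equivMapOfInjective _ hinj _).symm.finiteDimensional
    have h5 : Module.finrank ℂ ((LinearMap.ker φ).map V.subtype) =
        Module.finrank ℂ (LinearMap.ker φ) :=
      (LinearEquiv.finrank_eq (Submodule.equivMapOfInjective _ V.subtype_injective _)).symm
    have h6 : Module.finrank ℂ ((V.comap (j.restrictScalars ℂ)).map (j.restrictScalars ℂ)) =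
        Module.finrank ℂ (V.comap (j.restrictScalars ℂ)) :=
      (LinearEquiv.finrank_eq (Submodule.equivMapOfInjective _ hinj _)).symm
    rw [← h5, ← h6]
    exact Submodule.finrank_mono h3
  have h3 := LinearMap.finrank_range_add_finrank_ker φ
  omega

theorem sub_degree_lt {g : ℕ} {E : Bundle K 2} (hd : E.degree = 2 * (g : ℤ) - 2)
    {F : Bundle K 1} (h : ¬ (F.degree : ℚ) / (1 : ℕ) < (E.degree : ℚ) / (2 : ℕ)) :
    (g : ℤ) - 1 ≤ F.degree := by
  rw [hd] at h
  push_cast at h
  rw [div_one] at h
  have h1 : ((g : ℚ) - 1) ≤ F.degree := by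
    by_contra hcon
    push Not at hcon
    apply h
    linarith
  have h2 : (((g : ℤ) - 1 : ℤ) : ℚ) ≤ F.degree := by
    push_cast
    exact h1
  exact_mod_cast h2

theorem main (hK : IsCurve K) (hg : 2 ≤ genus K) (hBN : IsBrillNoetherGeneral K) (k : ℕ)
    (hk : 4 * genus K < (k + 1) ^ 2) (α : ℝ) (hα : 0 < α)
    (S : CoherentSystem K 2 (2 * (genus K : ℤ) - 2) k) (hS : IsCanonical S.bundle.det) :
    S.IsStable α ↔ Pool.Agent.Helper395.BC.IsStable S.bundle := by
  have hg0 : genus K ≠ 0 := by omega
  have hfE : FiniteDimensional ℂ S.bundle.sections := (rr hK hg0 S.bundle).1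
  have hfV : FiniteDimensional ℂ S.space := Submodule.finiteDimensional_of_le S.le_sections
  have hBN' : ∀ A : LineBundle K, (Module.finrank ℂ (H0 A) : ℤ) *
      (Module.finrank ℂ (H0 A) - (A.degree + 1 - genus K)) ≤ genus K := by
    intro A
    have := hBN A
    nlinarith
  constructor
  · intro hst m F j hm0 hm2 hF
    obtain rfl : m = 1 := by omega
    by_contra hcon
    have hdF := sub_degree_lt S.degree_eq hcon
    -- the sections of the line subbundle
    set W : Submodule ℂ (Fin 1 → K) := S.space.comap (j.restrictScalars ℂ) with hW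
    have hWF : W ≤ F.sections := by
      intro z hz v
      exact (hF.stalk v z).2 (S.le_sections hz v)
    have h1 := hst 1 F j W one_pos hF hWF (Submodule.map_comap_le _ _) (fun h => by omega)
    have h2 := finrank_le_add hK hg0 hF S.space S.le_sections
    rw [← hW, S.finrank_eq] at h2
    rw [finrank_canonical_sub hK hg0 hS] at h2
    have h3 := (rrL hK hg0 F.det).2
    have h4 := hBN' F.det
    rw [← h3] at h4
    rw [det_one_degree] at h3
    set a : ℕ := Module.finrank ℂ (H0 F.det)
    set b : ℕ := Module.finrank ℂ (H0 (lmul (can hK hg0) (linv F.det)))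
    set w : ℕ := Module.finrank ℂ W
    have h5 : 2 * w < k := by
      have h6 : ((F.degree : ℝ) + α * w) * 2 < (((2 * (genus K : ℤ) - 2 : ℤ) : ℝ) + α * k) := by
        rw [div_lt_div_iff₀ (by norm_num) (by norm_num)] at h1
        push_cast at h1 ⊢
        linarith
      have h7 : ((genus K : ℝ) - 1) ≤ F.degree := by exact_mod_cast hdF
      push_cast at h6
      have h8 : α * (2 * w) < α * k := by nlinarith
      have h9 : (2 * w : ℝ) < k := lt_of_mul_lt_mul_left h8 hα.le
      exact_mod_cast h9
    have h6 : k + 1 ≤ 2 * b := by omega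
    have h7 : b ≤ a := by omega
    have h8 : (b : ℤ) * b ≤ genus K := by
      have h9 : (a : ℤ) * ((a : ℤ) - (a - b)) = a * b := by ring
      rw [h9] at h4
      have h10 : (b : ℤ) * b ≤ a * b :=
        mul_le_mul_of_nonneg_right (by exact_mod_cast h7) (Nat.cast_nonneg _)
      linarith
    have h9 : b * b ≤ genus K := by exact_mod_cast h8
    nlinarith
  · intro hst m F j W hm0 hF hWF hWV hne
    have hm2 : m ≤ 2 := sub_rank_le hF
    have hinj : Function.Injective (j.restrictScalars ℂ) := hF.injective
    have hWeq : Module.finrank ℂ (W.map (j.restrictScalars ℂ)) = Module.finrank ℂ W :=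
      (LinearEquiv.finrank_eq (Submodule.equivMapOfInjective _ hinj W)).symm
    have hfF : FiniteDimensional ℂ F.sections := (rr hK hg0 F).1
    have hfW : FiniteDimensional ℂ W := Submodule.finiteDimensional_of_le hWF
    rcases lt_or_eq_of_le hm2 with hlt | heq
    · obtain rfl : m = 1 := by omega
      have h1 := hst 1 F j one_pos (by norm_num) hF
      have hd1 : F.degree < (genus K : ℤ) - 1 := by
        rw [S.degree_eq] at h1
        push_cast at h1
        rw [div_one] at h1
        have h2 : (F.degree : ℚ) < (((genus K : ℤ) - 1 : ℤ) : ℚ) := by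
          push_cast
          linarith
        exact_mod_cast h2
      have hw : Module.finrank ℂ W ≤ Module.finrank ℂ (H0 F.det) := by
        have hfH : FiniteDimensional ℂ (H0 F.det) := H0_finite hK hg0 _
        let ψ : W →ₗ[ℂ] H0 F.det :=
          { toFun := fun z => ⟨z.1 0, fun v => (mem_det_one F v z.1).1 (hWF z.2 v)⟩
            map_add' := fun _ _ => rfl
            map_smul' := fun _ _ => rfl }
        apply LinearMap.finrank_le_finrank_of_injective (f := ψ)
        intro x y hxy
        apply Subtype.ext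
        funext i
        rw [Subsingleton.elim i 0]
        exact congrArg Subtype.val hxy
      have h4 := hBN' F.det
      rw [det_one_degree] at h4
      set a : ℕ := Module.finrank ℂ (H0 F.det)
      set w : ℕ := Module.finrank ℂ W
      have h5 : 2 * w ≤ k := by
        by_contra hcon
        push Not at hcon
        have h6 : (a : ℤ) * (a + 1) ≤ genus K := by
          have h7 : (a : ℤ) * (a + 1) ≤ a * ((a : ℤ) - (F.degree + 1 - genus K)) :=
            mul_le_mul_of_nonneg_left (by omega) (Nat.cast_nonneg _)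
          linarith
        have h7 : a * (a + 1) ≤ genus K := by exact_mod_cast h6
        have h8 : k + 1 ≤ 2 * a := by omega
        nlinarith
      rw [div_lt_div_iff₀ (by norm_num) (by norm_num)]
      have h6 : (2 * w : ℝ) ≤ k := by exact_mod_cast h5
      have h7 : (F.degree : ℝ) ≤ (genus K : ℝ) - 2 := by
        have : F.degree ≤ (genus K : ℤ) - 2 := by omega
        exact_mod_cast this
      have h8 : α * (2 * w) ≤ α * k := mul_le_mul_of_nonneg_left h6 hα.le
      push_cast
      linarith
    · subst heq
      have h1 : F.degree = 2 * (genus K : ℤ) - 2 := by rw [sub_full_degree hK hF, S.degree_eq]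
      have h2 : W.map (j.restrictScalars ℂ) ≠ S.space := fun h => hne ⟨rfl, h⟩
      have h3 : Module.finrank ℂ W < k := by
        rw [← hWeq, ← S.finrank_eq]
        exact Submodule.finrank_lt_finrank_of_lt (lt_of_le_of_ne hWV h2)
      have h4 : (Module.finrank ℂ W : ℝ) < k := by exact_mod_cast h3
      rw [h1, div_lt_div_iff_of_pos_right (by norm_num)]
      have := mul_lt_mul_of_pos_left h4 hα
      linarith

end Pool.Agent.W525.BNK
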