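import Pool.Agent.H294R3.CohSys.Main

/-!
# Strict Clifford inequality for curves without a pencil of degree two

Curves are described by their function fields as in `Pool/Agent/Helper395/CS/Defs.lean`.
-/

open scoped WithZero Matrix IntermediateField
open WithZero

set_option linter.unusedSectionVars false
set_option linter.unusedVariables false

namespace Pool.Agent.W525.BA

open Pool.Agent.Helper395.CS hiding genus
open Pool.Agent.Helper395.BC

variable {K : Type} [Field K] [Algebra ℂ K] {n m q k : ℕ}

/-- a transcendental element has a zero -/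
theorem exists_zero (hK : IsCurve K) {t : K} (ht : Transcendental ℂ t) :
    ∃ v : Point K, 0 < v.ord t := by
  obtain ⟨S, hS, hsum⟩ := zero_count_aux hK ht
  have h3 := hK.finiteDimensional ht
  have h4 : 0 < Module.finrank ℂ⟮t⟯ K := Module.finrank_pos
  by_contra hcon
  push Not at hcon
  have h5 : ∑ v ∈ S, v.ord t ≤ 0 := Finset.sum_nonpos fun v _ => hcon v
  omega

theorem infinite_points (hK : IsCurve K) : Infinite (Point K) := by
  obtain ⟨t, ht⟩ := exists_transc hK
  have h1 : ∀ c : ℂ, Transcendental ℂ (t - algebraMap ℂ K c) := by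
    intro c h
    apply ht
    have := h.add (isAlgebraic_algebraMap (R := ℂ) (A := K) c)
    rwa [sub_add_cancel] at this
  choose φ hφ using fun c : ℂ => exists_zero hK (h1 c)
  refine Infinite.of_injective φ fun c d hcd => ?_
  have hne : ∀ c : ℂ, t - algebraMap ℂ K c ≠ 0 := by
    intro c h0
    apply h1 c
    rw [h0]
    exact isAlgebraic_zero
  have h2 : (φ c).val (t - algebraMap ℂ K c) < 1 := ((φ c).val_lt_one_iff (hne c)).2 (hφ c)
  have h3 : (φ c).val (t - algebraMap ℂ K d) < 1 := by
    rw [hcd]
    exact ((φ d).val_lt_one_iff (hne d)).2 (hφ d)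
  exact res_unique (φ c) h2 h3

/-- the infimum of two line bundles, as subsheaves of the generic fibre -/
noncomputable def linf (L M : LineBundle K) : LineBundle K := by
  classical
  exact
  { frame := fun v => if v.val (L.frame v : K) ≤ v.val (M.frame v : K) then L.frame v else M.frame v
    finite := by
      refine (L.finite.union M.finite).subset fun v hv => ?_
      by_contra hcon
      simp only [Set.mem_union, Set.mem_ofPred_eq, not_or, not_not] at hcon
      apply hv
      split_ifs
      · exact hcon.1
      · exact hcon.2 }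

/-- the supremum of two line bundles -/
noncomputable def lsup (L M : LineBundle K) : LineBundle K := by
  classical
  exact
  { frame := fun v => if v.val (L.frame v : K) ≤ v.val (M.frame v : K) then M.frame v else L.frame v
    finite := by
      refine (L.finite.union M.finite).subset fun v hv => ?_
      by_contra hcon
      simp only [Set.mem_union, Set.mem_ofPred_eq, not_or, not_not] at hcon
      apply hv
      split_ifs
      · exact hcon.2
      · exact hcon.1 }

theorem val_linf (L M : LineBundle K) (v : Point K) :
    v.val ((linf L M).frame v : K) = min (v.val (L.frame v : K)) (v.val (M.frame v : K)) := by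
  classical
  change v.val ((if v.val (L.frame v : K) ≤ v.val (M.frame v : K) then L.frame v else M.frame v : Kˣ)
    : K) = _
  split_ifs with h
  · rw [min_eq_left h]
  · rw [min_eq_right (not_le.1 h).le]

theorem val_lsup (L M : LineBundle K) (v : Point K) :
    v.val ((lsup L M).frame v : K) = max (v.val (L.frame v : K)) (v.val (M.frame v : K)) := by
  classical
  change v.val ((if v.val (L.frame v : K) ≤ v.val (M.frame v : K) then M.frame v else L.frame v : Kˣ)
    : K) = _
  split_ifs with h
  · rw [max_eq_right h]
  · rw [max_eq_left (not_le.1 h).le]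

theorem mem_H0 (L : LineBundle K) (f : K) : f ∈ H0 L ↔ ∀ v : Point K, v.val f ≤ v.val (L.frame v : K) :=
  Iff.rfl

theorem h0_inf_sup (hK : IsCurve K) (hg : genus K ≠ 0) (L M : LineBundle K) :
    Module.finrank ℂ (H0 L) + Module.finrank ℂ (H0 M) ≤
      Module.finrank ℂ (H0 (linf L M)) + Module.finrank ℂ (H0 (lsup L M)) := by
  have f1 := H0_finite hK hg L
  have f2 := H0_finite hK hg M
  have f3 := H0_finite hK hg (linf L M)
  have f4 := H0_finite hK hg (lsup L M)
  have h1 := Submodule.finrank_sup_add_finrank_inf_eq (H0 L) (H0 M)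
  have h2 : H0 L ⊔ H0 M ≤ H0 (lsup L M) := by
    apply sup_le
    · intro f hf
      rw [mem_H0] at hf ⊢
      intro v
      rw [val_lsup]
      exact (hf v).trans (le_max_left _ _)
    · intro f hf
      rw [mem_H0] at hf ⊢
      intro v
      rw [val_lsup]
      exact (hf v).trans (le_max_right _ _)
  have h3 : H0 L ⊓ H0 M ≤ H0 (linf L M) := by
    rintro f ⟨hf1, hf2⟩
    rw [mem_H0]
    intro v
    rw [val_linf]
    exact le_min (hf1 v) (hf2 v)
  have h4 := Submodule.finrank_mono h2
  have h5 := Submodule.finrank_mono h3
  omega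

/-- equality of valuations of frames gives equality of sections -/
theorem H0_congr_val {L M : LineBundle K}
    (h : ∀ v : Point K, v.val (L.frame v : K) = v.val (M.frame v : K)) : H0 L = H0 M := by
  ext f
  rw [mem_H0, mem_H0]
  simp only [h]

/-- the rank of `H⁰` is invariant under multiplication by a function -/
theorem h0_scale {L M : LineBundle K} (f : K) (hf : f ≠ 0)
    (h : ∀ v : Point K, v.val (M.frame v : K) * v.val f = v.val (L.frame v : K)) :
    Module.finrank ℂ (H0 M) = Module.finrank ℂ (H0 L) := by
  have hpos : ∀ v : Point K, 0 < v.val f := fun v => zero_lt_iff.2 (v.val_ne_zero hf)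
  let e : H0 M ≃ₗ[ℂ] H0 L :=
    { toFun := fun s => ⟨(s : K) * f, by
        rw [mem_H0]
        intro v
        rw [map_mul, ← h v]
        exact mul_le_mul_left (s.2 v) _⟩
      invFun := fun s => ⟨(s : K) * f⁻¹, by
        rw [mem_H0]
        intro v
        rw [map_mul, map_inv₀, ← div_eq_mul_inv, div_le_iff₀ (hpos v), h v]
        exact s.2 v⟩
      left_inv := fun s => by
        apply Subtype.ext
        change (s : K) * f * f⁻¹ = s
        rw [mul_assoc, mul_inv_cancel₀ hf, mul_one]
      right_inv := fun s => by
        apply Subtype.ext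
        change (s : K) * f⁻¹ * f = s
        rw [mul_assoc, inv_mul_cancel₀ hf, mul_one]
      map_add' := fun s t => by
        apply Subtype.ext
        change ((s : K) + t) * f = s * f + t * f
        ring
      map_smul' := fun c s => by
        apply Subtype.ext
        change (c • (s : K)) * f = c • ((s : K) * f)
        rw [smul_mul_assoc] }
  exact e.finrank_eq

theorem h0_lsub (hK : IsCurve K) (hg : genus K ≠ 0) (L : LineBundle K) (v : Point K) :
    Module.finrank ℂ (H0 L) ≤ Module.finrank ℂ (H0 (lsub L v)) + 1 := by
  have f1 := H0_finite hK hg L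
  have hle : H0 (lsub L v) ≤ H0 L := by
    apply H0_mono
    intro w s hs
    rcases eq_or_ne w v with rfl | hw
    · rw [mem_lsub_self] at hs
      exact hs.le
    · rwa [mem_lsub_ne L hw] at hs
  by_cases hc : H0 L ≤ H0 (lsub L v)
  · rw [le_antisymm hc hle]
    omega
  · obtain ⟨x, hx, hx'⟩ := Set.not_subset.1 hc
    have hxv : v.val x = v.val (L.frame v : K) := by
      refine le_antisymm (hx v) ?_
      by_contra hlt
      apply hx'
      intro w
      rcases eq_or_ne w v with rfl | hw
      · rw [mem_lsub_self]
        exact not_le.1 hlt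
      · rw [mem_lsub_ne L hw]
        exact hx w
    have hx0 : x ≠ 0 := by
      rintro rfl
      rw [map_zero] at hxv
      exact (frame_pos L v).ne hxv
    have h1 := finrank_succ_aux hle hx hx' (fun p hp => by
      have h2 : v.val (p / x) ≤ 1 := by
        rw [map_div₀, hxv, div_le_one₀ (frame_pos L v)]
        exact hp v
      obtain ⟨c, hc⟩ := exists_res hK v h2
      refine ⟨c, fun w => ?_⟩
      rcases eq_or_ne w v with rfl | hw
      · rw [mem_lsub_self]
        have h3 : p - c • x = (p / x - algebraMap ℂ K c) * x := by
          rw [sub_mul, div_mul_cancel₀ _ hx0, Algebra.smul_def]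
        rw [h3, map_mul, hxv]
        exact mul_lt_of_lt_one_left (frame_pos L w) hc
      · rw [mem_lsub_ne L hw]
        exact (H0 L).sub_mem hp ((H0 L).smul_mem c hx) w)
    have h2 := h1.2 f1
    omega

/-- frames of `lsub` -/
theorem val_lsub_lt (L : LineBundle K) (v : Point K) :
    v.val ((lsub L v).frame v : K) < v.val (L.frame v : K) := by
  have : ((lsub L v).frame v : K) ∈ (lsub L v).stalk v := le_refl (v.val ((lsub L v).frame v : K))
  rwa [mem_lsub_self] at this

theorem ldegree_lt (hK : IsCurve K) {L M : LineBundle K}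
    (h : ∀ v : Point K, v.val (L.frame v : K) ≤ v.val (M.frame v : K)) {v : Point K}
    (hv : v.val (L.frame v : K) < v.val (M.frame v : K)) : L.degree < M.degree := by
  have h1 : ∀ v s, s ∈ L.stalk v → s ∈ M.stalk v := fun v s hs => le_trans hs (h v)
  refine lt_of_le_of_ne (ldegree_le hK h1) fun hd => ?_
  have h2 := lstalk_eq_of_degree_eq hK h1 hd v
  have h3 : (M.frame v : K) ∈ M.stalk v := le_refl (v.val (M.frame v : K))
  rw [← h2] at h3
  exact not_le.2 hv h3

/-- Clifford's theorem with strict inequality for curves which are not hyperelliptic -/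
theorem cliff (hK : IsCurve K) (hg : genus K ≠ 0) (hs : SmallH0 K) : ∀ (N : ℕ) (A : LineBundle K),
    A.degree ≤ N → 2 ≤ Module.finrank ℂ (H0 A) →
    2 ≤ Module.finrank ℂ (H0 (lmul (can hK hg) (linv A))) →
    Module.finrank ℂ (H0 A) + Module.finrank ℂ (H0 (lmul (can hK hg) (linv A))) ≤ genus K := by
  classical
  intro N
  induction N with
  | zero =>
    intro A hA h1 h2
    have := hs A (by push_cast at hA; omega)
    omega
  | succ N ih =>
    intro A hA h1 h2
    by_contra hcon
    push Not at hcon
    set κ := can hK hg with hκ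
    set B := lmul κ (linv A) with hB
    have hrr := (rrL hK hg A).2
    rw [← hκ, ← hB] at hrr
    have hdeg3 : 3 ≤ A.degree := by
      by_contra h
      have := hs A (by omega)
      omega
    have hBdeg : 3 ≤ B.degree := by
      by_contra h
      have := hs B (by omega)
      omega
    have h3 : 3 ≤ Module.finrank ℂ (H0 A) := by omega
    have hfB := H0_finite hK hg B
    obtain ⟨t, ht, ht0⟩ : ∃ t ∈ H0 B, t ≠ 0 := by
      apply Submodule.exists_mem_ne_zero_of_ne_bot
      intro h
      rw [h, finrank_bot] at h2
      omega
    obtain ⟨P, hP⟩ : ∃ P : Point K, P.val t < P.val (B.frame P : K) := by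
      by_contra h
      push Not at h
      have h4 : B.degree = (lprin hK (Units.mk0 t ht0)).degree := by
        rw [LineBundle.degree, LineBundle.degree]
        refine finsum_congr fun v => ?_
        have h5 : v.val (B.frame v : K) = v.val t := le_antisymm (h v) (ht v)
        change -v.ord (B.frame v : K) = -v.ord t
        rw [Point.ord, Point.ord, h5]
      rw [lprin_degree] at h4
      omega
    obtain ⟨Q, hQ1, hQ2⟩ : ∃ Q : Point K, Q.val (B.frame Q : K) = 1 ∧ Q.val t = 1 := by
      have hinf := infinite_points hK
      have hfin : ({v : Point K | v.val (B.frame v : K) ≠ 1} ∪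
          {v : Point K | v.val ((lprin hK (Units.mk0 t ht0)).frame v : K) ≠ 1}).Finite :=
        B.finite.union (lprin hK (Units.mk0 t ht0)).finite
      obtain ⟨Q, hQ⟩ := hfin.exists_notMem
      simp only [Set.mem_union, Set.mem_ofPred_eq, not_or, not_not] at hQ
      exact ⟨Q, hQ.1, hQ.2⟩
    -- a section of `A` vanishing at `P` and `Q`
    obtain ⟨s, hs', hs0⟩ : ∃ s ∈ H0 (lsub (lsub A P) Q), s ≠ 0 := by
      apply Submodule.exists_mem_ne_zero_of_ne_bot
      intro h
      have h5 := h0_lsub hK hg A P
      have h6 := h0_lsub hK hg (lsub A P) Q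
      rw [h, finrank_bot] at h6
      omega
    have hPQ : P ≠ Q := by
      rintro rfl
      rw [hQ1, hQ2] at hP
      exact lt_irrefl _ hP
    have hsQ : Q.val s < Q.val (A.frame Q : K) := by
      have h5 : s ∈ (lsub (lsub A P) Q).stalk Q := hs' Q
      rw [mem_lsub_self] at h5
      refine lt_of_lt_of_le h5 ?_
      have h6 : ((lsub A P).frame Q : K) ∈ (lsub A P).stalk Q :=
        le_refl (Q.val ((lsub A P).frame Q : K))
      rw [mem_lsub_ne A hPQ.symm] at h6
      exact h6
    have hsA : s ∈ H0 (lsub A P) := by
      intro w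
      have h5 := hs' w
      rcases eq_or_ne w Q with rfl | hw
      · rw [mem_lsub_self] at h5
        exact h5.le
      · rwa [mem_lsub_ne _ hw] at h5
    have hsP : P.val s < P.val (A.frame P : K) := by
      have := hsA P
      rwa [mem_lsub_self] at this
    have hsA' : s ∈ H0 A := by
      intro w
      have h5 := hsA w
      rcases eq_or_ne w P with rfl | hw
      · rw [mem_lsub_self] at h5
        exact h5.le
      · rwa [mem_lsub_ne _ hw] at h5
    -- the scaled bundles
    set A' := lmul A (linv (lprin hK (Units.mk0 s hs0))) with hA'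
    set B' := lmul B (linv (lprin hK (Units.mk0 t ht0))) with hB'
    have hA'v : ∀ v : Point K, v.val (A'.frame v : K) = v.val (A.frame v : K) * (v.val s)⁻¹ := by
      intro v
      change v.val ((A.frame v * (Units.mk0 s hs0)⁻¹ : Kˣ) : K) = _
      rw [Units.val_mul, map_mul, Units.val_inv_eq_inv_val, map_inv₀, Units.val_mk0]
    have hB'v : ∀ v : Point K, v.val (B'.frame v : K) = v.val (B.frame v : K) * (v.val t)⁻¹ := by
      intro v
      change v.val ((B.frame v * (Units.mk0 t ht0)⁻¹ : Kˣ) : K) = _
      rw [Units.val_mul, map_mul, Units.val_inv_eq_inv_val, map_inv₀, Units.val_mk0]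
    have hspos : ∀ v : Point K, 0 < v.val s := fun v => zero_lt_iff.2 (v.val_ne_zero hs0)
    have htpos : ∀ v : Point K, 0 < v.val t := fun v => zero_lt_iff.2 (v.val_ne_zero ht0)
    have hA'1 : ∀ v : Point K, 1 ≤ v.val (A'.frame v : K) := by
      intro v
      rw [hA'v, ← div_eq_mul_inv, one_le_div₀ (hspos v)]
      exact hsA' v
    have hB'1 : ∀ v : Point K, 1 ≤ v.val (B'.frame v : K) := by
      intro v
      rw [hB'v, ← div_eq_mul_inv, one_le_div₀ (htpos v)]
      exact ht v
    have hA'h : Module.finrank ℂ (H0 A') = Module.finrank ℂ (H0 A) :=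
      h0_scale s hs0 fun v => by
        rw [hA'v, mul_assoc, inv_mul_cancel₀ (hspos v).ne', mul_one]
    have hB'h : Module.finrank ℂ (H0 B') = Module.finrank ℂ (H0 B) :=
      h0_scale t ht0 fun v => by
        rw [hB'v, mul_assoc, inv_mul_cancel₀ (htpos v).ne', mul_one]
    have hA'd : A'.degree = A.degree := by
      rw [hA', lmul_degree, linv_degree, lprin_degree]; ring
    set D := linf A' B' with hD
    set U := lsup A' B' with hU
    have hsum := h0_inf_sup hK hg A' B'
    rw [hA'h, hB'h, ← hD, ← hU] at hsum
    -- `U` is isomorphic to `κ - D`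
    have hUD : Module.finrank ℂ (H0 U) = Module.finrank ℂ (H0 (lmul κ (linv D))) := by
      apply h0_scale (s * t) (mul_ne_zero hs0 ht0)
      intro v
      have h7 : v.val ((lmul κ (linv D)).frame v : K) =
          v.val (κ.frame v : K) * (v.val (D.frame v : K))⁻¹ := by
        change v.val ((κ.frame v * (D.frame v)⁻¹ : Kˣ) : K) = _
        rw [Units.val_mul, map_mul, Units.val_inv_eq_inv_val, map_inv₀]
      rw [h7, ← div_eq_mul_inv,
        eq_div_iff (frame_pos D v).ne', hD, hU, val_linf, val_lsup]
      have h5 : max (v.val (A'.frame v : K)) (v.val (B'.frame v : K)) * v.val (s * t) *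
          min (v.val (A'.frame v : K)) (v.val (B'.frame v : K)) =
          (v.val (A'.frame v : K) * v.val (B'.frame v : K)) * v.val (s * t) := by
        rw [mul_right_comm, max_mul_min]
      rw [h5, hA'v, hB'v, map_mul]
      have h6 : v.val (B.frame v : K) = v.val (κ.frame v : K) * (v.val (A.frame v : K))⁻¹ := by
        change v.val ((κ.frame v * (A.frame v)⁻¹ : Kˣ) : K) = _
        rw [Units.val_mul, map_mul, Units.val_inv_eq_inv_val, map_inv₀]
      rw [h6]
      have e1 := (hspos v).ne'
      have e2 := (htpos v).ne'
      have e3 := (frame_pos A v).ne'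
      field_simp
    have hUB : Module.finrank ℂ (H0 B) ≤ Module.finrank ℂ (H0 U) := by
      rw [← hB'h]
      have f4 := H0_finite hK hg U
      apply Submodule.finrank_mono
      intro f hf
      rw [mem_H0] at hf ⊢
      intro v
      rw [hU, val_lsup]
      exact (hf v).trans (le_max_right _ _)
    have hDdeg : D.degree < A.degree := by
      rw [← hA'd]
      refine ldegree_lt hK (v := Q) (fun v => ?_) ?_
      · rw [hD, val_linf]
        exact min_le_left _ _
      · rw [hD, val_linf, hB'v, hQ1, hQ2, inv_one, mul_one, hA'v]
        refine (min_le_right _ _).trans_lt ?_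
        rw [← div_eq_mul_inv, one_lt_div₀ (hspos Q)]
        exact hsQ
    have hDpos : 0 < D.degree := by
      rw [← one_degree (K := K)]
      refine ldegree_lt hK (v := P) (fun v => ?_) ?_
      · rw [hD, val_linf]
        change v.val ((1 : Kˣ) : K) ≤ _
        rw [Units.val_one, map_one]
        exact le_min (hA'1 v) (hB'1 v)
      · rw [hD, val_linf]
        change P.val ((1 : Kˣ) : K) < _
        rw [Units.val_one, map_one, hA'v, hB'v]
        apply lt_min
        · rw [← div_eq_mul_inv, one_lt_div₀ (hspos P)]
          exact hsP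
        · rw [← div_eq_mul_inv, one_lt_div₀ (htpos P)]
          exact hP
    by_cases hD2 : 2 ≤ Module.finrank ℂ (H0 D)
    · have := ih D (by push_cast at hA; omega) hD2 (by rw [← hUD]; omega)
      rw [← hUD] at this
      omega
    · have hrrD := (rrL hK hg D).2
      rw [← hκ, ← hUD] at hrrD
      omega

/-- a line bundle with `q + 1` sections has degree at least `2 q + 1` if `1 ≤ q ≤ g - 2` -/
theorem degree_ge (hK : IsCurve K) (hg : genus K ≠ 0) (hs : SmallH0 K) {A : LineBundle K} {q : ℕ}
    (hq : 1 ≤ q) (hqg : q + 2 ≤ genus K) (hA : q + 1 ≤ Module.finrank ℂ (H0 A)) :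
    2 * q + 1 ≤ A.degree := by
  by_contra hcon
  have hrr := (rrL hK hg A).2
  have h1 := cliff hK hg hs (A.degree.toNat) A (by omega) (by omega) (by omega)
  omega

end Pool.Agent.W525.BA
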