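import Pool.Agent.W525.Ext

/-!
# Existence of the stable generated coherent system of type `(2 g - 2, 4 g - 3, 2 g)`
-/

open scoped WithZero Matrix IntermediateField
open WithZero

set_option linter.unusedSectionVars false
set_option linter.unusedVariables false

namespace Pool.Agent.W525.BA

open Pool.Agent.Helper395.CS hiding genus
open Pool.Agent.Helper395.BC hiding SubM Dat p1 p2 p1_apply p2_apply p1_append p2_append append_p
  p_ext reg_iff i1 i2 p1_i1 p2_i1 p1_i2 p2_i2 eqM eqM_eq_zero

variable {K : Type} [Field K] [Algebra ℂ K] {n m q k r : ℕ}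

/-- the data used for the construction of the extension -/
theorem exists_data' (hK : IsCurve K) (hg : genus K ≠ 0) (hg3 : 3 ≤ genus K)
    (hne : HasNoPencilOfDegreeTwo K) :
    ∃ (L1 : LineBundle K) (a b α : Fin (genus K) → K) (u : Point K → K),
      Dat hK hg L1 a b α u := by
  have hs := smallH0 hK hg hne
  obtain ⟨T, hT1, hT0⟩ := exists_T hK hg hs
  set κ := can hK hg with hκ
  have hκd : κ.degree = 2 * genus K - 2 := by rw [hκ, can_degree]
  have hκ3 : Module.finrank ℂ (H0 κ) = genus K := by rw [hκ, can_h0]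
  have hL1d : (lmul κ T).degree = 2 * genus K - 1 := by rw [lmul_degree, hκd, hT1]; ring
  -- `κ` is globally generated
  have hκv : ∀ v, Module.finrank ℂ (H0 (lsub κ v)) < genus K := by
    intro v
    have h1 := (rrL hK hg (lpt v)).2
    rw [lpt_degree] at h1
    have h2 := hs (lpt v) (by rw [lpt_degree]; norm_num)
    change (Module.finrank ℂ (H0 (lpt v)) : ℤ) - Module.finrank ℂ (H0 (lsub κ v)) = _ at h1
    omega
  obtain ⟨b, hb⟩ := exists_GG κ (by omega) hκ3 hκv
  -- `L₁`
  have hL13 : Module.finrank ℂ (H0 (lmul κ T)) = genus K := by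
    have h1 := (rrL hK hg (lmul κ T)).2
    have h2 : H0 (lmul κ (linv (lmul κ T))) = ⊥ := by
      apply H0_eq_bot hK
      rw [lmul_degree, linv_degree, hκd, hL1d]
      omega
    rw [← hκ, h2, finrank_bot, hL1d] at h1
    omega
  have hL1v : ∀ v, Module.finrank ℂ (H0 (lsub (lmul κ T) v)) < genus K := by
    intro v
    have h1 := (rrL hK hg (lsub (lmul κ T) v)).2
    have h2 : H0 (lmul κ (linv (lsub (lmul κ T) v))) = ⊥ := by
      rw [eq_bot_iff]
      intro f hf
      by_contra hf0
      have hf0' : f ≠ 0 := hf0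
      have h3 : (lmul κ (linv (lsub (lmul κ T) v))).degree = 0 := by
        rw [lmul_degree, linv_degree, lsub_degree, hκd, hL1d]
        ring
      have h4 := inv_mem_of_degree_zero hK h3 hf hf0'
      have h5 : f⁻¹ ∈ H0 T := by
        intro w
        change w.val f⁻¹ ≤ w.val (T.frame w : K)
        rw [map_inv₀, h4 w]
        change (w.val ((κ.frame w * ((κ.frame w * T.frame w) * ((lpt v).frame w)⁻¹)⁻¹ : Kˣ) : K))⁻¹
          ≤ _
        have h6 : κ.frame w * ((κ.frame w * T.frame w) * ((lpt v).frame w)⁻¹)⁻¹ =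
            (T.frame w)⁻¹ * (lpt v).frame w := by
          rw [mul_inv, mul_inv, inv_inv, ← mul_assoc, ← mul_assoc, mul_inv_cancel, one_mul]
        rw [h6, Units.val_mul, map_mul, mul_inv, Units.val_inv_eq_inv_val, map_inv₀, inv_inv]
        apply mul_le_of_le_one_right'
        rcases eq_or_ne w v with rfl | hw
        · exact inv_le_one_of_one_le₀ frame_lt_self.le
        · rw [lpt_frame_ne hw, Units.val_one, map_one, inv_one]
      rw [hT0] at h5
      exact inv_ne_zero hf0' h5
    rw [← hκ, h2, finrank_bot, lsub_degree, hL1d] at h1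
    omega
  obtain ⟨a, ha⟩ := exists_GG (lmul κ T) (by omega) hL13 hL1v
  -- the extension class
  have hOmL1 : Om1 (lmul κ T) = ⊥ := by
    obtain ⟨f1, f2, h1⟩ := lHasChi hK hg (lmul κ T)
    rw [hL13, hL1d] at h1
    apply Submodule.finrank_eq_zero.1
    omega
  have hOmT : Om1 T ≠ ⊥ := by
    intro h
    obtain ⟨f1, f2, h1⟩ := lHasChi hK hg T
    rw [hT0, h, finrank_bot, finrank_bot, hT1] at h1
    omega
  obtain ⟨w, hw, hw0⟩ := Submodule.exists_mem_ne_zero_of_ne_bot hOmT
  obtain ⟨u, hu⟩ : ∃ u, w u ≠ 0 := by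
    by_contra hcon
    push Not at hcon
    exact hw0 (LinearMap.ext hcon)
  choose α hα using fun l => exists_split_of_om1 hOmL1 (smulR hK (b l) u)
  refine ⟨lmul κ T, a, b, α, u.1, hL1d, ha, hb, fun v l => ?_, fun f => ?_⟩
  · have := hα l v
    change α l - b l * u.1 v ∈ _ at this
    rwa [mul_comm (b l)] at this
  · by_contra hcon
    push Not at hcon
    apply hu
    -- `u = f - (f - u)`
    have hfr : (fun _ : Point K => f) ∈ repartitions K := finite_not_reg hK f
    have h1 : ∀ v, (f - u.1 v) ∈ T.stalk v := by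
      intro v
      have h2 := hcon v
      rw [mem_lmul, map_mul, mul_comm] at h2
      exact (mul_le_mul_iff_of_pos_left (frame_pos κ v)).1 h2
    have h2 : u = ⟨fun _ : Point K => f, hfr⟩ - (⟨fun _ : Point K => f, hfr⟩ - u) := by
      rw [sub_sub_cancel]
    rw [h2, map_sub, hw.1 _ ⟨f, fun _ => rfl⟩, hw.2 (⟨fun _ : Point K => f, hfr⟩ - u) h1, sub_zero]

/-- constant functionals vanishing on the kernel -/
theorem GG.const_of_ker (hK : IsCurve K) {L : LineBundle K} {c : Fin r → K} (h : GG L c)
    (hr : 2 ≤ r) {C : Fin r → ℂ}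
    (hC : ∀ t : Fin r → K, ∑ i, c i * t i = 0 → ∑ i, C i • t i = 0) : C = 0 := by
  classical
  -- two different indices
  have key : ∀ i l : Fin r, i ≠ l → C i = 0 := by
    intro i l hil
    have hci := h.ne_zero i
    have h1 := prop_of_ker' (c := c) (β := fun i => algebraMap ℂ K (C i)) hci (by
      intro t ht
      rw [← hC t ht]
      exact Finset.sum_congr rfl fun i _ => (Algebra.smul_def _ _).symm) l
    beta_reduce at h1
    have h2 := h.indep (Pi.single l (C i) - Pi.single i (C l)) (by
      have h3 : ∀ (p : Fin r) (z : ℂ), ∑ i, (Pi.single p z : Fin r → ℂ) i • c i = z • c p := by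
        intro p z
        rw [Finset.sum_eq_single p]
        · rw [Pi.single_eq_same]
        · intro i _ hi
          rw [Pi.single_eq_of_ne hi, zero_smul]
        · simp
      simp only [Pi.sub_apply, sub_smul, Finset.sum_sub_distrib, h3]
      rw [Algebra.smul_def, Algebra.smul_def, h1]
      field_simp
      ring)
    have h3 := congrFun h2 l
    rw [Pi.sub_apply, Pi.single_eq_same, Pi.single_eq_of_ne hil.symm, sub_zero] at h3
    exact h3
  funext i
  have : ∃ l : Fin r, i ≠ l := by
    by_contra hcon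
    push Not at hcon
    have h1 := hcon ⟨0, by omega⟩
    have h2 := hcon ⟨1, by omega⟩
    rw [h1] at h2
    have := congrArg Fin.val h2
    simp at this
  obtain ⟨l, hl⟩ := this
  exact key i l hl

/-- inclusion of the first `r` coordinates -/
def i1 : (Fin r → K) →ₗ[K] (Fin (r + r) → K) where
  toFun s := Fin.append s 0
  map_add' s t := by
    apply p_ext
    · rw [map_add, p1_append, p1_append, p1_append]
    · rw [map_add, p2_append, p2_append, p2_append, add_zero]
  map_smul' c s := by
    apply p_ext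
    · rw [map_smul, p1_append, p1_append]; rfl
    · rw [map_smul, p2_append, p2_append, smul_zero]

theorem p1_i1 (s : Fin r → K) : p1 (i1 s) = s := p1_append _ _
theorem p2_i1 (s : Fin r → K) : p2 (i1 s) = 0 := p2_append _ _

variable {hK : IsCurve K} {hg : genus K ≠ 0} {L1 : LineBundle K} {a b α : Fin (genus K) → K}
    {u : Point K → K}

theorem Dat.indep (D : Dat hK hg L1 a b α u) (hg2 : 2 ≤ genus K)
    {M : Bundle K (2 * genus K - 2)}
    {j : (Fin (2 * genus K - 2) → K) →ₗ[K] (Fin (genus K + genus K) → K)}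
    (hker : ∀ s, eqM a b α s = 0 → s ∈ LinearMap.range j) {C1 C2 : Fin (genus K) → ℂ}
    (h : ∀ x, ∑ i, C1 i • p1 (j x) i + ∑ i, C2 i • p2 (j x) i = 0) : C1 = 0 ∧ C2 = 0 := by
  obtain ⟨v0⟩ := point_nonempty hK
  obtain ⟨i0, -⟩ := D.ga.gen v0
  have ha0 := D.ga.ne_zero i0
  have h1 : C1 = 0 := by
    apply D.ga.const_of_ker hK hg2
    intro s hs
    obtain ⟨x, hx⟩ := hker (i1 s) (by
      rw [eqM_eq_zero, p1_i1, p2_i1]
      refine ⟨?_, by simp⟩
      rw [hs]; simp)
    have h2 := h x
    rw [hx, p1_i1, p2_i1] at h2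
    simpa using h2
  refine ⟨h1, ?_⟩
  apply D.gb.const_of_ker hK hg2
  intro t ht
  obtain ⟨x, hx⟩ := hker (Fin.append (Pi.single i0 (-(∑ i, α i * t i) / a i0)) t) (by
    rw [eqM_eq_zero, p1_append, p2_append]
    refine ⟨?_, ht⟩
    rw [sum_mul_single, mul_div_cancel₀ _ ha0]
    exact neg_add_cancel _)
  have h2 := h x
  rw [hx, p2_append, h1] at h2
  simpa using h2

/-- the space of the coordinate functionals generates the dual bundle -/
theorem dual_generated_by {M : Bundle K n} {j : (Fin n → K) →ₗ[K] (Fin k → K)}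
    (hj : IsSubbundle M (trivialBundle K k) j) {V : Submodule ℂ (Fin n → K)}
    (hV : ∀ i, rowJ j i ∈ V) (hV' : V ≤ (bdual M).sections) : IsGeneratedBy (bdual M) V := by
  refine ⟨hV', fun v f hf => ?_⟩
  obtain ⟨R, hR1, hR2⟩ := exists_retraction hj v
  refine ⟨k, fun i => ∑ l, f l * R (Pi.single i 1) l, rowJ j, fun i => ?_, fun i => hV i, ?_⟩
  · apply (mem_bdual M v f).1 hf
    apply hR2
    rw [mem_trivial]
    intro l
    rcases eq_or_ne l i with rfl | hl
    · rw [Pi.single_eq_same, map_one]
    · rw [Pi.single_eq_of_ne hl]; simp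
  · funext l
    rw [Finset.sum_apply]
    have h1 : R (j (Pi.single l 1)) = ∑ i, j (Pi.single l 1) i • R (Pi.single i 1) := by
      conv_lhs => rw [← Finset.univ_sum_single (j (Pi.single l 1)), map_sum]
      refine Finset.sum_congr rfl fun i _ => ?_
      rw [← map_smul]
      congr 1
      rw [← Pi.single_smul, smul_eq_mul, mul_one]
    rw [hR1] at h1
    have h2 : f l = ∑ p, f p * (Pi.single l 1 : Fin n → K) p := by
      rw [sum_mul_single, mul_one]
    rw [h2, h1]
    simp only [Finset.sum_apply, Pi.smul_apply, smul_eq_mul, Finset.mul_sum, Finset.sum_mul]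
    rw [Finset.sum_comm]
    refine Finset.sum_congr rfl fun i _ => Finset.sum_congr rfl fun p _ => ?_
    change _ = f p * R (Pi.single i 1) p * j (Pi.single l 1) i
    ring

/-- the constant combinations of the coordinate functionals -/
def rowMap (j : (Fin n → K) →ₗ[K] (Fin k → K)) : (Fin k → ℂ) →ₗ[ℂ] (Fin n → K) where
  toFun c := ∑ i, c i • rowJ j i
  map_add' c d := by
    rw [← Finset.sum_add_distrib]
    exact Finset.sum_congr rfl fun i _ => add_smul _ _ _
  map_smul' a c := by
    rw [RingHom.id_apply, Finset.smul_sum]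
    exact Finset.sum_congr rfl fun i _ => mul_smul _ _ _

theorem rowMap_apply (j : (Fin n → K) →ₗ[K] (Fin k → K)) (c : Fin k → ℂ) :
    rowMap j c = ∑ i, c i • rowJ j i := rfl

theorem rowMap_dot (j : (Fin n → K) →ₗ[K] (Fin k → K)) (c : Fin k → ℂ) (x : Fin n → K) :
    ∑ l, rowMap j c l * x l = ∑ i, c i • j x i := by
  rw [rowMap_apply]
  simp only [← rowJ_dot j _ x, Finset.sum_apply, Finset.sum_mul, Pi.smul_apply, Finset.smul_sum]
  rw [Finset.sum_comm]
  exact Finset.sum_congr rfl fun i _ => Finset.sum_congr rfl fun l _ => smul_mul_assoc _ _ _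

theorem rowMap_single (j : (Fin n → K) →ₗ[K] (Fin k → K)) (i : Fin k) :
    rowMap j (Pi.single i 1) = rowJ j i := by
  rw [rowMap_apply, Finset.sum_eq_single i]
  · rw [Pi.single_eq_same, one_smul]
  · intro l _ hl
    rw [Pi.single_eq_of_ne hl, zero_smul]
  · simp

/-- existence of the stable generated coherent system -/
theorem exists_system (hK : IsCurve K) (hg3 : 3 ≤ genus K) (hne : HasNoPencilOfDegreeTwo K) :
    ∃ S : CoherentSystem K (2 * genus K - 2) (4 * genus K - 3) (2 * genus K),
      IsStable S.bundle ∧ IsGeneratedBy S.bundle S.space := by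
  have hg : genus K ≠ 0 := by omega
  have hs := smallH0 hK hg hne
  obtain ⟨L1, a, b, α, u, D⟩ := exists_data' hK hg hg3 hne
  obtain ⟨M, j, hM, hker, hd⟩ := D.exists_M (by omega)
  have hj : IsSubbundle M (trivialBundle K (genus K + genus K)) j :=
    ⟨hM.inj, fun v x => by rw [hM.stalk, mem_trivial]⟩
  have hV' : LinearMap.range (rowMap j) ≤ (bdual M).sections := by
    rintro _ ⟨c, rfl⟩
    rw [rowMap_apply]
    exact Submodule.sum_mem _ fun i _ => Submodule.smul_mem _ _
      (rowJ_mem (fun v x hx => (hM.stalk v x).1 hx) i)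
  have hinj : Function.Injective (rowMap j) := by
    rw [← LinearMap.ker_eq_bot, LinearMap.ker_eq_bot']
    intro c hc
    obtain ⟨h1, h2⟩ := D.indep (by omega) hker (C1 := fun i => c (Fin.castAdd (genus K) i))
      (C2 := fun i => c (Fin.natAdd (genus K) i)) (M := M) (fun x => by
        have h3 := rowMap_dot j c x
        rw [hc, Fin.sum_univ_add] at h3
        simp only [Pi.zero_apply, zero_mul, Finset.sum_const_zero] at h3
        exact h3.symm)
    funext i
    refine Fin.addCases (fun i => ?_) (fun i => ?_) i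
    · exact congrFun h1 i
    · exact congrFun h2 i
  refine ⟨⟨bdual M, LinearMap.range (rowMap j), hV', ?_, ?_⟩, D.stable hs (by omega) hM hd, ?_⟩
  · rw [bdual_degree, hd, neg_neg]
  · rw [LinearMap.finrank_range_of_inj hinj]
    simp
    omega
  · exact dual_generated_by hj (fun i => ⟨_, rowMap_single j i⟩) hV'

end Pool.Agent.W525.BA
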