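import Pool.Agent.W525.Kernel

/-!
# The extension of the two kernel bundles

`L` is a line bundle of degree `2 g - 1`, `Ω` the canonical bundle (degree `2 g - 2`), both globally
generated with `g` sections, and `M ⊆ 𝒪 ^ (2 g)` is the kernel bundle of a non-split extension of `Ω`
by `L`.
-/

open scoped WithZero Matrix IntermediateField
open WithZero

set_option linter.unusedSectionVars false
set_option linter.unusedVariables false

namespace Pool.Agent.W525.BA

open Pool.Agent.Helper395.CS hiding genus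
open Pool.Agent.Helper395.BC hiding SubM Dat p1 p2 p1_apply p2_apply p1_append p2_append append_p
  p_ext reg_iff i1 i2 p1_i1 p2_i1 p1_i2 p2_i2 eqM eqM_eq_zero

variable {K : Type} [Field K] [Algebra ℂ K] {n m q k r : ℕ}

/-! ### coordinates -/

/-- the first `r` coordinates -/
def p1 : (Fin (r + r) → K) →ₗ[K] (Fin r → K) := LinearMap.funLeft K K (Fin.castAdd r)

/-- the last `r` coordinates -/
def p2 : (Fin (r + r) → K) →ₗ[K] (Fin r → K) := LinearMap.funLeft K K (Fin.natAdd r)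

theorem p1_apply (s : Fin (r + r) → K) (i : Fin r) : p1 s i = s (Fin.castAdd r i) := rfl
theorem p2_apply (s : Fin (r + r) → K) (i : Fin r) : p2 s i = s (Fin.natAdd r i) := rfl

theorem p1_append (s t : Fin r → K) : p1 (Fin.append s t) = s := by
  funext i
  rw [p1_apply, Fin.append_left]

theorem p2_append (s t : Fin r → K) : p2 (Fin.append s t) = t := by
  funext i
  rw [p2_apply, Fin.append_right]

theorem append_p (s : Fin (r + r) → K) : Fin.append (p1 s) (p2 s) = s := by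
  funext i
  refine Fin.addCases (fun i => ?_) (fun i => ?_) i
  · rw [Fin.append_left]; rfl
  · rw [Fin.append_right]; rfl

theorem p_ext {s t : Fin (r + r) → K} (h1 : p1 s = p1 t) (h2 : p2 s = p2 t) : s = t := by
  rw [← append_p s, ← append_p t, h1, h2]

theorem reg_iff (v : Point K) (s : Fin (r + r) → K) : v.Reg s ↔ v.Reg (p1 s) ∧ v.Reg (p2 s) := by
  constructor
  · intro h
    exact ⟨fun i => h _, fun i => h _⟩
  · rintro ⟨h1, h2⟩ i
    refine Fin.addCases (fun i => ?_) (fun i => ?_) i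
    · exact h1 i
    · exact h2 i

/-- the bundle `S` is a subbundle of `M ⊆ 𝒪 ^ (2 r)` -/
structure SubM (a b α : Fin r → K) (S : Bundle K q) (ψ : (Fin q → K) →ₗ[K] (Fin (r + r) → K)) :
    Prop where
  inj : Function.Injective ψ
  stalk : ∀ (v : Point K) x, x ∈ S.stalk v ↔ v.Reg (ψ x)
  rel1 : ∀ x, ∑ i, a i * p1 (ψ x) i + ∑ i, α i * p2 (ψ x) i = 0
  rel2 : ∀ x, ∑ i, b i * p2 (ψ x) i = 0

/-- splitting of a subbundle -/
theorem SubM.split (hK : IsCurve K) {a b α : Fin r → K} {S : Bundle K q}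
    {ψ : (Fin q → K) →ₗ[K] (Fin (r + r) → K)} (h : SubM a b α S ψ) :
    ∃ (q1 q2 : ℕ) (R1 : Bundle K q1) (R2 : Bundle K q2) (ψ1 : (Fin q1 → K) →ₗ[K] (Fin r → K))
      (ψ2 : (Fin q2 → K) →ₗ[K] (Fin r → K)), q = q1 + q2 ∧ SubK a R1 ψ1 ∧ SubK b R2 ψ2 ∧
      S.degree ≤ R1.degree + R2.degree ∧ (q1 = 0 → Function.Injective (p2 ∘ₗ ψ)) ∧
      ((∀ (v : Point K) t, v.Reg t → ∑ i, b i * t i = 0 → ∃ x ∈ S.stalk v, p2 (ψ x) = t) →
        S.degree = R1.degree + R2.degree) := by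
  have hdim := LinearMap.finrank_range_add_finrank_ker (p2 ∘ₗ ψ)
  rw [Module.finrank_fintype_fun_eq_card, Fintype.card_fin] at hdim
  obtain ⟨q2, hq2⟩ : ∃ q2, Module.finrank K (LinearMap.range (p2 ∘ₗ ψ)) = q2 := ⟨_, rfl⟩
  obtain ⟨q1, hq1⟩ : ∃ q1, Module.finrank K (LinearMap.ker (p2 ∘ₗ ψ)) = q1 := ⟨_, rfl⟩
  obtain ⟨j2, hj2, hr2⟩ := exists_param (LinearMap.range (p2 ∘ₗ ψ)) hq2
  obtain ⟨j1, hj1, hr1⟩ := exists_param (LinearMap.ker (p2 ∘ₗ ψ)) hq1
  obtain ⟨R2, hR2⟩ := exists_sub hK (trivialBundle K r) j2 hj2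
  obtain ⟨R1, hR1⟩ := exists_sub hK S j1 hj1
  have h10 : ∀ x, p2 (ψ (j1 x)) = 0 := by
    intro x
    have : j1 x ∈ LinearMap.ker (p2 ∘ₗ ψ) := by rw [← hr1]; exact ⟨x, rfl⟩
    exact this
  -- the projection
  let e2 := LinearEquiv.ofInjective j2 hj2
  have hrange : ∀ x, p2 (ψ x) ∈ LinearMap.range j2 := by
    intro x
    rw [hr2]
    exact ⟨x, rfl⟩
  let P : (Fin q → K) →ₗ[K] (Fin q2 → K) :=
    e2.symm.toLinearMap ∘ₗ ((p2 ∘ₗ ψ).codRestrict (LinearMap.range j2) hrange)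
  have hP : ∀ x, j2 (P x) = p2 (ψ x) := by
    intro x
    have h1 : (e2 (P x) : Fin r → K) = p2 (ψ x) := by
      change ((e2 (e2.symm _)) : Fin r → K) = _
      rw [LinearEquiv.apply_symm_apply]
      rfl
    exact h1
  have hPs : Function.Surjective P := by
    intro y
    have h1 : j2 y ∈ LinearMap.range (p2 ∘ₗ ψ) := by rw [← hr2]; exact ⟨y, rfl⟩
    obtain ⟨x, hx⟩ := h1
    refine ⟨x, hj2 ?_⟩
    rw [hP]
    exact hx
  have hk := degree_exact hK (E := S) (F := R1) (G := R2) (P := P) hR1 hPs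
    (fun x hx => by
      rw [hr1, LinearMap.mem_ker]
      change p2 (ψ x) = 0
      rw [← hP, hx, map_zero])
    (fun x => by
      apply hj2
      rw [hP, h10, map_zero])
    (fun v x hx => by
      rw [hR2.stalk, mem_trivial, hP]
      exact ((reg_iff v _).1 ((h.stalk v x).1 hx)).2)
  refine ⟨_, _, R1, R2, p1 ∘ₗ ψ ∘ₗ j1, j2, by omega, ⟨?_, ?_, ?_⟩, ⟨hj2, ?_, ?_⟩, hk.1, ?_, ?_⟩
  · intro x y hxy
    apply hj1
    apply h.inj
    apply p_ext
    · exact hxy
    · rw [h10, h10]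
  · intro v x
    rw [hR1.stalk, h.stalk, reg_iff, h10]
    constructor
    · exact fun h => h.1
    · intro h
      exact ⟨h, fun i => by simp⟩
  · intro x
    have h1 := h.rel1 (j1 x)
    rw [h10] at h1
    simpa using h1
  · intro v x
    rw [hR2.stalk, mem_trivial]
  · intro x
    have h1 : j2 x ∈ LinearMap.range (p2 ∘ₗ ψ) := by rw [← hr2]; exact ⟨x, rfl⟩
    obtain ⟨y, hy⟩ := h1
    rw [← hy]
    exact h.rel2 y
  · intro h0
    rw [← LinearMap.ker_eq_bot]
    exact Submodule.finrank_eq_zero.1 (hq1.trans h0)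
  · intro hsurj
    apply hk.2
    intro v y hy
    rw [hR2.stalk, mem_trivial] at hy
    have h1 : j2 y ∈ LinearMap.range (p2 ∘ₗ ψ) := by rw [← hr2]; exact ⟨y, rfl⟩
    obtain ⟨z, hz⟩ := h1
    obtain ⟨x, hx, hxy⟩ := hsurj v (j2 y) hy (by rw [← hz]; exact h.rel2 z)
    refine ⟨x, hx, hj2 ?_⟩
    rw [hP, hxy]

/-- the data for the construction -/
structure Dat (hK : IsCurve K) (hg : genus K ≠ 0) (L1 : LineBundle K) (a b α : Fin (genus K) → K)
    (u : Point K → K) : Prop where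
  d1 : L1.degree = 2 * genus K - 1
  ga : GG L1 a
  gb : GG (can hK hg) b
  hα : ∀ v l, α l - u v * b l ∈ L1.stalk v
  hu : ∀ w : K, ∃ v, (w - u v) * ((can hK hg).frame v : K) ∉ L1.stalk v

theorem range_eq_ker' (hK : IsCurve K) {L : LineBundle K} {c : Fin r → K} (h : GG L c)
    {ψ : (Fin m → K) →ₗ[K] (Fin r → K)} (hm : m + 1 = r) (hψ : Function.Injective ψ)
    (hrel : ∀ x, ∑ i, c i * ψ x i = 0) {t : Fin r → K} (ht : ∑ i, c i * t i = 0) :
    ∃ x, ψ x = t := by
  have h1 : LinearMap.range ψ = LinearMap.ker (dotg c) := by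
    apply Submodule.eq_of_le_of_finrank_eq
    · rintro _ ⟨x, rfl⟩
      rw [LinearMap.mem_ker]
      funext i
      exact hrel x
    · have := h.ker_finrank hK
      rw [LinearMap.finrank_range_of_inj hψ]
      simp
      omega
  have h2 : t ∈ LinearMap.ker (dotg c) := by
    rw [LinearMap.mem_ker]
    funext i
    exact ht
  rw [← h1] at h2
  exact h2

variable {hK : IsCurve K} {hg : genus K ≠ 0} {L1 : LineBundle K} {a b α : Fin (genus K) → K}
    {u : Point K → K}

/-- the extension does not split -/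
theorem Dat.not_split (hs : SmallH0 K) (hg2 : 2 ≤ genus K) (D : Dat hK hg L1 a b α u)
    {S : Bundle K q} (hq : q + 1 = genus K)
    {ψ : (Fin q → K) →ₗ[K] (Fin (genus K + genus K) → K)} (h : SubM a b α S ψ)
    (hinj : Function.Injective (p2 ∘ₗ ψ)) : S.degree ≤ -(2 * q + 1) := by
  obtain ⟨R, hR⟩ := exists_sub hK (trivialBundle K (genus K)) (p2 ∘ₗ ψ) hinj
  have hRk : SubK b R (p2 ∘ₗ ψ) := ⟨hinj, fun v x => by rw [hR.stalk, mem_trivial], h.rel2⟩
  have hRd := hRk.degree hK D.gb hq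
  rw [can_degree] at hRd
  have hle : ∀ (v : Point K) x, x ∈ S.stalk v → x ∈ R.stalk v := by
    intro v x hx
    rw [hRk.stalk]
    exact ((reg_iff v _).1 ((h.stalk v x).1 hx)).2
  have h1 := degree_le_of_le hK hle
  by_contra hcon
  have h2 := stalk_eq_of_degree_eq hK hle (by omega)
  obtain ⟨ρ, hρ⟩ := (p2 ∘ₗ ψ).exists_leftInverse_of_injective (LinearMap.ker_eq_bot.2 hinj)
  have hρ' : ∀ x, ρ (p2 (ψ x)) = x := fun x => LinearMap.congr_fun hρ x
  have hC : ∀ i, ∃ C : Fin (genus K) → ℂ, ∀ t : Fin (genus K) → K, ∑ i, b i * t i = 0 →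
      p1 (ψ (ρ t)) i = ∑ l, C l • t l := by
    intro i
    refine hom_const_can hK hg hs hg2 D.gb
      ((LinearMap.proj i ∘ₗ p1 ∘ₗ ψ ∘ₗ ρ : (Fin (genus K) → K) →ₗ[K] K)) ?_
    intro v t ht hbt
    obtain ⟨x, rfl⟩ := range_eq_ker' hK D.gb hq hinj h.rel2 hbt
    change v.val (p1 (ψ (ρ (p2 (ψ x)))) i) ≤ 1
    rw [hρ']
    have h3 : x ∈ S.stalk v := by
      rw [h2 v, hRk.stalk]
      exact ht
    exact ((reg_iff v _).1 ((h.stalk v x).1 h3)).1 i
  choose C hC using hC
  set β : Fin (genus K) → K := fun l => α l + ∑ i, C i l • a i with hβ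
  have hβt : ∀ t : Fin (genus K) → K, ∑ i, b i * t i = 0 → ∑ l, β l * t l = 0 := by
    intro t ht
    obtain ⟨x, hx⟩ := range_eq_ker' hK D.gb hq hinj h.rel2 ht
    have hx' : p2 (ψ x) = t := hx
    have h3 := h.rel1 x
    have h4 : ∀ i, p1 (ψ x) i = ∑ l, C i l • t l := by
      intro i
      rw [← hC i t ht, ← hx', hρ']
    rw [hx'] at h3
    simp only [h4] at h3
    rw [← h3]
    simp only [hβ, add_mul, Finset.sum_add_distrib, Finset.sum_mul, Finset.mul_sum]
    rw [add_comm, Finset.sum_comm]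
    congr 1
    refine Finset.sum_congr rfl fun i _ => Finset.sum_congr rfl fun l _ => ?_
    rw [Algebra.smul_def, Algebra.smul_def]
    ring
  obtain ⟨v0⟩ := point_nonempty hK
  obtain ⟨i0, -⟩ := D.gb.gen v0
  have hprop := prop_of_ker' (D.gb.ne_zero i0) hβt
  obtain ⟨v, hv⟩ := D.hu (β i0 / b i0)
  apply hv
  obtain ⟨l, hl⟩ := D.gb.gen v
  have h5 : (β i0 / b i0 - u v) * b l = ∑ i, C i l • a i + (α l - u v * b l) := by
    rw [sub_mul, ← hprop l, hβ]
    ring
  have h6 : (β i0 / b i0 - u v) * b l ∈ L1.stalk v := by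
    rw [h5]
    refine lstalk_add ?_ (D.hα v l)
    have h7 : ∑ i, C i l • a i ∈ H0 L1 := Submodule.sum_mem _ fun i _ =>
      Submodule.smul_mem _ _ (D.ga.mem i)
    exact h7 v
  change v.val ((β i0 / b i0 - u v) * ((can hK hg).frame v : K)) ≤ _
  rw [map_mul, ← hl, ← map_mul]
  exact h6

/-- bounds for the degrees of subbundles of `M` -/
theorem Dat.bounds (hs : SmallH0 K) (hg2 : 2 ≤ genus K) (D : Dat hK hg L1 a b α u)
    {S : Bundle K q} {ψ : (Fin q → K) →ₗ[K] (Fin (genus K + genus K) → K)}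
    (h : SubM a b α S ψ) (hq : 1 ≤ q) : S.degree ≤ -(2 * q + 1) := by
  obtain ⟨q1, q2, R1, R2, ψ1, ψ2, hq', hR1, hR2, hdeg, hinj, -⟩ := h.split hK
  have a1 := hR1.rank_le hK D.ga
  have a2 := hR2.rank_le hK D.gb
  -- the first part
  have b1 : (q1 = 0 ∧ R1.degree = 0) ∨ (1 ≤ q1 ∧ R1.degree ≤ -(2 * q1 + 1)) := by
    rcases Nat.eq_zero_or_pos q1 with h0 | h0
    · left
      subst h0
      exact ⟨rfl, bundle_zero_degree R1⟩
    · right
      refine ⟨h0, ?_⟩
      rcases Nat.lt_or_ge (q1 + 1) (genus K) with h1 | h1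
      · exact hR1.degree_le hK hg hs D.ga h0 (by omega)
      · rw [hR1.degree hK D.ga (by omega), D.d1]
        omega
  have b2 : (q2 = 0 ∧ R2.degree = 0) ∨ (1 ≤ q2 ∧ q2 + 1 < genus K ∧ R2.degree ≤ -(2 * q2 + 1)) ∨
      (1 ≤ q2 ∧ q2 + 1 = genus K ∧ R2.degree = -(2 * q2)) := by
    rcases Nat.eq_zero_or_pos q2 with h0 | h0
    · left
      subst h0
      exact ⟨rfl, bundle_zero_degree R2⟩
    · right
      rcases Nat.lt_or_ge (q2 + 1) (genus K) with h1 | h1
      · left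
        exact ⟨h0, h1, hR2.degree_le hK hg hs D.gb h0 (by omega)⟩
      · right
        refine ⟨h0, by omega, ?_⟩
        rw [hR2.degree hK D.gb (by omega), can_degree]
        omega
  rcases b1 with ⟨c1, c2⟩ | ⟨c1, c2⟩
  · rcases b2 with ⟨d1, d2⟩ | ⟨d1, d2, d3⟩ | ⟨d1, d2, d3⟩
    · omega
    · omega
    · exact D.not_split hs hg2 (by omega) h (hinj c1)
  · rcases b2 with ⟨d1, d2⟩ | ⟨d1, d2, d3⟩ | ⟨d1, d2, d3⟩ <;> omega

/-- local lifting -/
theorem Dat.lift (D : Dat hK hg L1 a b α u) (v : Point K) {t : Fin (genus K) → K} (ht : v.Reg t)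
    (hbt : ∑ i, b i * t i = 0) : ∃ s : Fin (genus K) → K, v.Reg s ∧
      ∑ i, a i * s i + ∑ i, α i * t i = 0 := by
  have h1 : -∑ i, α i * t i ∈ L1.stalk v := by
    have h2 : -∑ i, α i * t i = -∑ i, (α i - u v * b i) * t i := by
      have : ∑ i, (α i - u v * b i) * t i = ∑ i, α i * t i - u v * ∑ i, b i * t i := by
        rw [Finset.mul_sum, ← Finset.sum_sub_distrib]
        exact Finset.sum_congr rfl fun i _ => by ring
      rw [this, hbt, mul_zero, sub_zero]
    rw [h2]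
    change v.val _ ≤ _
    rw [Valuation.map_neg]
    refine Valuation.map_sum_le _ fun i _ => ?_
    rw [map_mul]
    exact (mul_le_of_le_one_right' (ht i)).trans (D.hα v i)
  obtain ⟨s, hs, hs'⟩ := D.ga.exists_coord v h1
  exact ⟨s, hs, by rw [hs']; exact neg_add_cancel _⟩

/-- the defining equations of `M` -/
def eqM (a b α : Fin r → K) : (Fin (r + r) → K) →ₗ[K] (Fin 2 → K) where
  toFun s := ![∑ i, a i * p1 s i + ∑ i, α i * p2 s i, ∑ i, b i * p2 s i]
  map_add' s t := by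
    funext i
    fin_cases i
    · change ∑ i, a i * (p1 (s + t)) i + ∑ i, α i * (p2 (s + t)) i =
        (∑ i, a i * p1 s i + ∑ i, α i * p2 s i) + (∑ i, a i * p1 t i + ∑ i, α i * p2 t i)
      simp only [map_add, Pi.add_apply, mul_add, Finset.sum_add_distrib]
      ring
    · change ∑ i, b i * (p2 (s + t)) i = ∑ i, b i * p2 s i + ∑ i, b i * p2 t i
      simp only [map_add, Pi.add_apply, mul_add, Finset.sum_add_distrib]
  map_smul' c s := by
    funext i
    fin_cases i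
    · change ∑ i, a i * (p1 (c • s)) i + ∑ i, α i * (p2 (c • s)) i =
        c * (∑ i, a i * p1 s i + ∑ i, α i * p2 s i)
      simp only [map_smul, Pi.smul_apply, smul_eq_mul, mul_add, Finset.mul_sum]
      congr 1 <;> exact Finset.sum_congr rfl fun i _ => by ring
    · change ∑ i, b i * (p2 (c • s)) i = c * ∑ i, b i * p2 s i
      simp only [map_smul, Pi.smul_apply, smul_eq_mul, Finset.mul_sum]
      exact Finset.sum_congr rfl fun i _ => by ring

theorem eqM_eq_zero (a b α : Fin r → K) (s : Fin (r + r) → K) : eqM a b α s = 0 ↔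
    ∑ i, a i * p1 s i + ∑ i, α i * p2 s i = 0 ∧ ∑ i, b i * p2 s i = 0 := by
  constructor
  · intro h
    exact ⟨congrFun h 0, congrFun h 1⟩
  · rintro ⟨h1, h2⟩
    funext i
    fin_cases i
    · exact h1
    · exact h2

theorem sum_mul_single (c : Fin r → K) (i0 : Fin r) (x : K) :
    ∑ i, c i * (Pi.single i0 x : Fin r → K) i = c i0 * x := by
  classical
  rw [Finset.sum_eq_single i0]
  · rw [Pi.single_eq_same]
  · intro i _ hi
    rw [Pi.single_eq_of_ne hi, mul_zero]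
  · simp

theorem Dat.eqM_surjective (D : Dat hK hg L1 a b α u) : Function.Surjective (eqM a b α) := by
  intro z
  obtain ⟨v0⟩ := point_nonempty hK
  obtain ⟨i0, -⟩ := D.gb.gen v0
  have ha0 := D.ga.ne_zero i0
  have hb0 := D.gb.ne_zero i0
  refine ⟨Fin.append (Pi.single i0 ((z 0 - α i0 * (z 1 / b i0)) / a i0))
    (Pi.single i0 (z 1 / b i0)), ?_⟩
  funext i
  fin_cases i
  · change ∑ i, a i * p1 (Fin.append _ _) i + ∑ i, α i * p2 (Fin.append _ _) i = z 0
    rw [p1_append, p2_append, sum_mul_single, sum_mul_single]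
    field_simp
    ring
  · change ∑ i, b i * p2 (Fin.append _ _) i = z 1
    rw [p2_append, sum_mul_single]
    field_simp

/-- existence of `M` -/
theorem Dat.exists_M (D : Dat hK hg L1 a b α u) (hg2 : 2 ≤ genus K) :
    ∃ (M : Bundle K (2 * genus K - 2))
      (j : (Fin (2 * genus K - 2) → K) →ₗ[K] (Fin (genus K + genus K) → K)), SubM a b α M j ∧
      (∀ s, eqM a b α s = 0 → s ∈ LinearMap.range j) ∧ M.degree = -(4 * genus K - 3) := by
  obtain ⟨M, j, hj, h1, h2⟩ := exists_ker_sub hK (trivialBundle K (genus K + genus K)) (eqM a b α)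
    D.eqM_surjective (m := 2 * genus K - 2) (by omega)
  have hM : SubM a b α M j := ⟨hj.injective, fun v x => by rw [hj.stalk, mem_trivial],
    fun x => ((eqM_eq_zero a b α _).1 (h2 x)).1, fun x => ((eqM_eq_zero a b α _).1 (h2 x)).2⟩
  refine ⟨M, j, hM, h1, ?_⟩
  obtain ⟨q1, q2, R1, R2, ψ1, ψ2, hq, hR1, hR2, hdeg, hinj, heq⟩ := hM.split hK
  have a1 := hR1.rank_le hK D.ga
  have a2 := hR2.rank_le hK D.gb
  rw [heq, hR1.degree hK D.ga (by omega), hR2.degree hK D.gb (by omega), D.d1, can_degree]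
  · ring
  · intro v t ht hbt
    obtain ⟨s, hs, hst⟩ := D.lift v ht hbt
    obtain ⟨x, hx⟩ := h1 (Fin.append s t) (by
      rw [eqM_eq_zero, p1_append, p2_append]
      exact ⟨hst, hbt⟩)
    refine ⟨x, ?_, ?_⟩
    · rw [hM.stalk, reg_iff, hx, p1_append, p2_append]
      exact ⟨hs, ht⟩
    · rw [hx, p2_append]

/-- the dual bundle of `M` is stable -/
theorem Dat.stable (hs : SmallH0 K) (hg2 : 2 ≤ genus K) (D : Dat hK hg L1 a b α u)
    {M : Bundle K (2 * genus K - 2)}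
    {j : (Fin (2 * genus K - 2) → K) →ₗ[K] (Fin (genus K + genus K) → K)} (hM : SubM a b α M j)
    (hd : M.degree = -(4 * genus K - 3)) : IsStable (bdual M) := by
  intro m F jF hm0 hm4 hF
  obtain ⟨S, jS, hS, hdeg⟩ := bdual_sub hK hF (q := 2 * genus K - 2 - m) (by omega)
  rw [hd] at hdeg
  rw [bdual_degree, hd, neg_neg]
  have hSM : SubM a b α S (j ∘ₗ jS) := ⟨hM.inj.comp hS.injective, fun v x => by
    rw [hS.stalk, hM.stalk]
    rfl, fun x => hM.rel1 _, fun x => hM.rel2 _⟩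
  have h1 := D.bounds hs hg2 hSM (by omega)
  have h2 : F.degree ≤ 2 * m := by omega
  have hmq : (0 : ℚ) < m := by exact_mod_cast hm0
  have hrq : (0 : ℚ) < ((2 * genus K - 2 : ℕ) : ℚ) := by
    have : 0 < 2 * genus K - 2 := by omega
    exact_mod_cast this
  rw [div_lt_div_iff₀ hmq hrq]
  have h3 : F.degree * ((2 * genus K - 2 : ℕ) : ℤ) < (4 * genus K - 3) * m := by
    have h4 : ((2 * genus K - 2 : ℕ) : ℤ) = 2 * genus K - 2 := by omega
    rw [h4]
    have h5 : (0 : ℤ) < m := by exact_mod_cast hm0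
    have h6 : (2 : ℤ) ≤ genus K := by exact_mod_cast hg2
    nlinarith
  exact_mod_cast h3

end Pool.Agent.W525.BA
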