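import Pool.Agent.W525.Exist

/-!
# Butler's conjecture fails for the type `(2 g - 2, 4 g - 3, 2 g)` on every non-hyperelliptic curve
of genus `g ≥ 3`
-/

open scoped WithZero Matrix IntermediateField
open WithZero

set_option linter.unusedSectionVars false
set_option linter.unusedVariables false

namespace Pool.Agent.W525.BA

open Pool.Agent.Helper395.CS hiding genus
open Pool.Agent.Helper395.BC hiding SubM Dat p1 p2 p1_apply p2_apply p1_append p2_append append_p
  p_ext reg_iff i1 i2 p1_i1 p2_i1 p1_i2 p2_i2 eqM eqM_eq_zero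
open Pool.Agent.H294R3.CohSys hiding exists_dualSpan

variable {K : Type} [Field K] [Algebra ℂ K] {n m q k r : ℕ} {d : ℤ}

/-- the bundle of a system in `G_0` is semistable -/
theorem semistable_of_G0 (hK : IsCurve K) (hn : 0 < n) (S : CoherentSystem K n d k)
    (hS : IsInG0 S) : IsSemistable S.bundle := by
  obtain ⟨ε, hε, h⟩ := hS
  intro m F j hm0 hF
  rcases lt_or_eq_of_le (sub_rank_le hF) with hlt | heq
  · have hm : (0 : ℝ) < m := by exact_mod_cast hm0
    have hn' : (0 : ℝ) < n := by exact_mod_cast hn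
    rw [S.degree_eq]
    by_contra hcon
    push Not at hcon
    have hmq : (0 : ℚ) < m := by exact_mod_cast hm0
    have hnq : (0 : ℚ) < n := by exact_mod_cast hn
    rw [div_lt_div_iff₀ hnq hmq] at hcon
    have h2 : d * m < F.degree * n := by exact_mod_cast hcon
    have h3 : d * m + 1 ≤ F.degree * n := h2
    have h4 : (d : ℝ) * m + 1 ≤ F.degree * n := by exact_mod_cast h3
    have hk : (0 : ℝ) ≤ k := Nat.cast_nonneg _
    have hpos : (0 : ℝ) < 1 / (k * m + 1) := by positivity
    have h1 := h (min (ε / 2) (1 / (k * m + 1))) (lt_min (by linarith) hpos)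
      ((min_le_left _ _).trans_lt (by linarith)) m F j ⊥ hm0 hF bot_le
      (by rw [Submodule.map_bot]; exact bot_le) (fun h => by omega)
    rw [finrank_bot, div_lt_div_iff₀ hm hn'] at h1
    have h5 : min (ε / 2) (1 / ((k : ℝ) * m + 1)) * (k * m + 1) ≤ 1 := by
      calc min (ε / 2) (1 / ((k : ℝ) * m + 1)) * (k * m + 1)
          ≤ 1 / ((k : ℝ) * m + 1) * (k * m + 1) := by
            apply mul_le_mul_of_nonneg_right (min_le_right _ _)
            positivity
        _ = 1 := by
            field_simp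
    have h6 : 0 < min (ε / 2) (1 / ((k : ℝ) * m + 1)) := lt_min (by linarith) hpos
    push_cast at h1
    nlinarith
  · subst heq
    rw [sub_full_degree hK hF]

/-- a stable bundle with a space of sections defines a point of `G_0` -/
theorem G0_of_stable' (hK : IsCurve K) (hn : 0 < n) (hk : 0 < k) (S : CoherentSystem K n d k)
    (hs : IsStable S.bundle) : IsInG0 S := by
  have hn' : (0 : ℝ) < n := by exact_mod_cast hn
  have hk' : (0 : ℝ) < k := by exact_mod_cast hk
  refine ⟨1 / (k * n + 1), by positivity, fun α hα0 hα1 => ?_⟩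
  intro m F j W hm0 hF hW1 hW2 hW3
  have hfin : Module.Finite ℂ S.space := Module.finite_of_finrank_pos (by rw [S.finrank_eq]; exact hk)
  have hmn : m ≤ n := sub_rank_le hF
  have hm : (0 : ℝ) < m := by exact_mod_cast hm0
  have hjinj : Function.Injective (j.restrictScalars ℂ) := hF.injective
  have hWeq : Module.finrank ℂ (W.map (j.restrictScalars ℂ)) = Module.finrank ℂ W :=
    (LinearEquiv.finrank_eq (Submodule.equivMapOfInjective _ hjinj W)).symm
  have hWk : Module.finrank ℂ W ≤ k := by
    rw [← hWeq, ← S.finrank_eq]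
    exact Submodule.finrank_mono hW2
  rw [div_lt_div_iff₀ hm hn']
  have hα2 : α * (k * n + 1) < 1 := by
    rwa [lt_div_iff₀ (by positivity)] at hα1
  rcases lt_or_eq_of_le hmn with hlt | heq
  · have h1 := hs m F j hm0 hlt hF
    have hmq : (0 : ℚ) < m := by exact_mod_cast hm0
    have hnq : (0 : ℚ) < n := by exact_mod_cast hn
    rw [S.degree_eq, div_lt_div_iff₀ hmq hnq] at h1
    have h2 : F.degree * n < d * m := by exact_mod_cast h1
    have h3 : F.degree * n + 1 ≤ d * m := h2
    have h4 : (F.degree : ℝ) * n + 1 ≤ d * m := by exact_mod_cast h3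
    have h5 : (Module.finrank ℂ W : ℝ) ≤ k := by exact_mod_cast hWk
    have h6 : (0 : ℝ) ≤ Module.finrank ℂ W := Nat.cast_nonneg _
    have h7 : α * (Module.finrank ℂ W : ℝ) * n ≤ α * k * n := by
      apply mul_le_mul_of_nonneg_right _ hn'.le
      exact mul_le_mul_of_nonneg_left h5 hα0.le
    have h8 : 0 < α * k * m := by positivity
    nlinarith
  · subst heq
    have h1 : F.degree = d := by rw [sub_full_degree hK hF, S.degree_eq]
    have h2 : W.map (j.restrictScalars ℂ) ≠ S.space := fun h => hW3 ⟨rfl, h⟩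
    have h3 : Module.finrank ℂ W < k := by
      rw [← hWeq, ← S.finrank_eq]
      exact Submodule.finrank_lt_finrank_of_lt (lt_of_le_of_ne hW2 h2)
    have h5 : (Module.finrank ℂ W : ℝ) < k := by exact_mod_cast h3
    rw [h1]
    apply mul_lt_mul_of_pos_right _ hm
    have := mul_lt_mul_of_pos_left h5 hα0
    linarith

/-- in `G_0(2 g - 2, 4 g - 3, k)` the bundle is stable -/
theorem stable_of_G0' (hK : IsCurve K) (hg3 : 3 ≤ genus K)
    (S : CoherentSystem K (2 * genus K - 2) (4 * genus K - 3) k) (hS : IsInG0 S) :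
    IsStable S.bundle := by
  have h := semistable_of_G0 hK (by omega) S hS
  intro m F j hm0 hmn hF
  have h1 := h m F j hm0 hF
  rw [S.degree_eq] at h1 ⊢
  have hmq : (0 : ℚ) < m := by exact_mod_cast hm0
  have hnq : (0 : ℚ) < ((2 * genus K - 2 : ℕ) : ℚ) := by
    have : 0 < 2 * genus K - 2 := by omega
    exact_mod_cast this
  rw [div_le_div_iff₀ hmq hnq] at h1
  rw [div_lt_div_iff₀ hmq hnq]
  have h2 : F.degree * ((2 * genus K - 2 : ℕ) : ℤ) ≤ (4 * genus K - 3) * m := by exact_mod_cast h1
  have h3 : F.degree * ((2 * genus K - 2 : ℕ) : ℤ) < (4 * genus K - 3) * m := by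
    refine lt_of_le_of_ne h2 fun heq => ?_
    have h4 : ((2 * genus K - 2 : ℕ) : ℤ) = 2 * genus K - 2 := by omega
    rw [h4] at heq
    have h5 : (m : ℤ) = (2 * genus K - 2) * (F.degree - 2 * m) := by linarith
    have h6 : (0 : ℤ) < m := by exact_mod_cast hm0
    have h7 : (m : ℤ) < 2 * genus K - 2 := by omega
    have h8 : (0 : ℤ) < 2 * genus K - 2 := by omega
    have h9 : 0 < F.degree - 2 * m := by
      by_contra hcon
      push Not at hcon
      nlinarith
    nlinarith
  exact_mod_cast h3

/-- there are no `α`-stable coherent systems of type `(2, 4 g - 3, 2 g)` for `0 < α ≤ 1 / (2 g)` -/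
theorem not_stable_two (hK : IsCurve K) (hg : genus K ≠ 0)
    (T : CoherentSystem K 2 (4 * genus K - 3) (2 * genus K)) {α : ℝ} (hα : α * (2 * genus K) ≤ 1) :
    ¬ T.IsStable α := by
  intro hT
  obtain ⟨r1, r2, r3⟩ := rr hK hg T.bundle
  have h1 : 2 * genus K ≤ Module.finrank ℂ T.bundle.sections :=
    T.finrank_eq.symm.le.trans (Submodule.finrank_mono T.le_sections)
  rw [T.degree_eq] at r3
  have h2 : dualK hK hg T.bundle ≠ ⊥ := by
    intro h
    rw [h, finrank_bot] at r3
    push_cast at r3
    omega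
  obtain ⟨f, hf, hf0⟩ := Submodule.exists_mem_ne_zero_of_ne_bot h2
  let P : (Fin 2 → K) →ₗ[K] (Fin 1 → K) :=
    { toFun := fun s _ => ∑ i, f i * s i
      map_add' := fun s t => by
        funext _
        change _ = ∑ i, f i * s i + ∑ i, f i * t i
        rw [← Finset.sum_add_distrib]
        exact Finset.sum_congr rfl fun i _ => mul_add _ _ _
      map_smul' := fun c s => by
        funext _
        change _ = c * ∑ i, f i * s i
        rw [Finset.mul_sum]
        exact Finset.sum_congr rfl fun i _ => by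
          rw [Pi.smul_apply, smul_eq_mul]; ring }
  have hPa : ∀ s i, P s i = ∑ i, f i * s i := fun s i => rfl
  have hP : Function.Surjective P := by
    intro z
    obtain ⟨i, hi⟩ := Function.ne_iff.1 hf0
    refine ⟨Pi.single i (z 0 / f i), ?_⟩
    funext l
    rw [hPa, sum_mul_single, mul_div_cancel₀ _ hi, Subsingleton.elim l 0]
  obtain ⟨F, j, hF, hex, hex'⟩ := exists_ker_sub hK T.bundle P hP (m := 1) rfl
  have h3 := (degree_exact hK (G := lsum (can hK hg) 1) hF hP hex hex' (fun v s hs => by
    rw [mem_lsum_stalk]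
    intro i
    exact hf v s hs)).1
  rw [T.degree_eq, lsum_degree, can_degree, Nat.cast_one, one_mul] at h3
  have h4 := hT 1 F j ⊥ one_pos hF bot_le (by rw [Submodule.map_bot]; exact bot_le)
    (fun h => absurd h.1 (by norm_num))
  rw [finrank_bot, div_lt_div_iff₀ (by norm_num) (by norm_num)] at h4
  push_cast at h4
  have h5 : 2 * (genus K : ℤ) - 1 ≤ F.degree := by omega
  have h6 : 2 * (genus K : ℝ) - 1 ≤ F.degree := by exact_mod_cast h5
  nlinarith

/-- the dual span of a generated coherent system with stable bundle exists -/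
theorem exists_dualSpan' (hK : IsCurve K) (S : CoherentSystem K m d k) (hE : IsStable S.bundle)
    (hm : 2 ≤ m) (hd : 0 < d) (hk : k = n + m) (hgen : IsGeneratedBy S.bundle S.space) :
    ∃ T : CoherentSystem K n d k, IsDualSpan S T := by
  classical
  have hfin : Module.Finite ℂ S.space := Module.finite_of_finrank_pos (by rw [S.finrank_eq]; omega)
  let b : Module.Basis (Fin k) ℂ S.space :=
    (Module.finBasis ℂ S.space).reindex (finCongr S.finrank_eq)
  obtain ⟨M, j, hj, hr, hs⟩ := exists_kernelBundle hK (m := n) b hgen hk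
  obtain ⟨hrank, hdeg⟩ := kernel_rank_degree hK b hgen hj hr hs
  rw [S.degree_eq] at hdeg
  have hsurj := evMap_surjective hK b hgen
  have hext : ∀ s s' : Fin n → K, (∀ x : Fin n → K, ∑ i, s i * x i = ∑ i, s' i * x i) → s = s' := by
    intro s s' h
    funext l
    have h1 := h (Pi.single l 1)
    rw [sum_mul_single, sum_mul_single, mul_one, mul_one] at h1
    exact h1
  have hdot : ∀ (c : Fin k → ℂ) (x : Fin n → K),
      ∑ l, rowMap j c l * x l = ∑ i, algebraMap ℂ K (c i) * j x i := by
    intro c x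
    rw [rowMap_dot]
    exact Finset.sum_congr rfl fun i _ => Algebra.smul_def _ _
  have hΦ : Function.Injective (rowMap j) := by
    rw [← LinearMap.ker_eq_bot, LinearMap.ker_eq_bot']
    intro c hc
    -- the functional `c` on `K ^ k` factors through the evaluation map
    let lc : (Fin k → K) →ₗ[K] K :=
      { toFun := fun t => ∑ i, algebraMap ℂ K (c i) * t i
        map_add' := fun s t => by
          rw [← Finset.sum_add_distrib]
          exact Finset.sum_congr rfl fun i _ => mul_add _ _ _
        map_smul' := fun a t => by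
          rw [RingHom.id_apply, smul_eq_mul, Finset.mul_sum]
          exact Finset.sum_congr rfl fun i _ => by
            rw [Pi.smul_apply, smul_eq_mul]; ring }
    have h4 : ∀ t, evMap (fun i => (b i : Fin m → K)) t = 0 → lc t = 0 := by
      intro t ht
      obtain ⟨x, rfl⟩ := (hr t).2 ht
      change ∑ i, algebraMap ℂ K (c i) * j x i = 0
      rw [← hdot, hc]
      simp
    obtain ⟨σ, hσ⟩ := (evMap (fun i => (b i : Fin m → K))).exists_rightInverse_of_surjective
      (LinearMap.range_eq_top.2 hsurj)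
    have hσ' : ∀ s, evMap (fun i => (b i : Fin m → K)) (σ s) = s := fun s =>
      LinearMap.congr_fun hσ s
    have h5 : ∀ t, (lc ∘ₗ σ) (evMap (fun i => (b i : Fin m → K)) t) = lc t := by
      intro t
      have h6 := h4 (σ (evMap (fun i => (b i : Fin m → K)) t) - t) (by
        rw [map_sub, hσ', sub_self])
      rw [map_sub, sub_eq_zero] at h6
      exact h6
    have h7 := stable_no_functional hK hE hm (by rw [S.degree_eq]; exact hd)
      (lc ∘ₗ σ) (fun v s hs' => by
      obtain ⟨t, ht, rfl⟩ := exists_coord b hgen v hs'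
      rw [h5]
      change v.val (∑ i, algebraMap ℂ K (c i) * t i) ≤ 1
      refine Valuation.map_sum_le _ fun i _ => ?_
      rw [map_mul]
      exact mul_le_one' (v.const_le _) (ht i))
    funext i
    have h8 := h5 (Pi.single i 1)
    rw [h7, LinearMap.zero_apply] at h8
    have h9 : lc (Pi.single i 1) = algebraMap ℂ K (c i) := by
      change ∑ l, algebraMap ℂ K (c l) * (Pi.single i 1 : Fin k → K) l = _
      rw [sum_mul_single, mul_one]
    rw [h9] at h8
    exact (map_eq_zero _).1 h8.symm
  refine ⟨⟨bdual M, LinearMap.range (rowMap j), ?_, ?_, ?_⟩, M, b, j, hj, hr, hs, ?_, ?_⟩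
  · rintro _ ⟨c, rfl⟩ v
    rw [mem_bdual]
    intro x hx
    rw [hdot]
    refine Valuation.map_sum_le _ fun i _ => ?_
    rw [map_mul]
    exact mul_le_one' (v.const_le _) ((hs v x).1 hx i)
  · rw [bdual_degree, hdeg, neg_neg]
  · rw [LinearMap.finrank_range_of_inj hΦ]
    simp
  · intro v s
    exact mem_bdual M v s
  · intro s
    constructor
    · rintro ⟨c, rfl⟩
      exact ⟨c, fun x => hdot c x⟩
    · rintro ⟨c, hc⟩
      refine ⟨c, ?_⟩
      apply hext
      intro x
      rw [hdot, hc]

/-- generation is invariant under isomorphism -/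
theorem iso_generatedBy {E F : Bundle K n} {V W : Submodule ℂ (Fin n → K)} {A : GL (Fin n) K}
    (h : IsBundleIso E F A) (hVW : V.map ((Matrix.mulVecLin A.1).restrictScalars ℂ) = W)
    (hE : IsGeneratedBy E V) : IsGeneratedBy F W := by
  subst hVW
  constructor
  · rintro _ ⟨s, hs, rfl⟩ v
    exact (h v s).1 (hE.1 hs v)
  · intro v s hs
    have h1 : A⁻¹.1 *ᵥ s ∈ E.stalk v := by
      rw [h v, gl_mulVec_inv]
      exact hs
    obtain ⟨l, c, t, hc, ht, hst⟩ := hE.2 v _ h1
    refine ⟨l, c, fun i => A.1 *ᵥ t i, hc, fun i => ⟨_, ht i, rfl⟩, ?_⟩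
    rw [← gl_mulVec_inv A s, hst, Matrix.mulVec_sum]
    exact Finset.sum_congr rfl fun i _ => Matrix.mulVec_smul _ _ _

/-- the locus `S_0(n, d, k)` of the generated coherent systems in the moduli space `G_0(n, d, k)` -/
def S0 (K : Type) [Field K] [Algebra ℂ K] (n : ℕ) (d : ℤ) (k : ℕ) : Set (ModuliG0 K n d k) :=
  {x | ∃ S : SystemG0 K n d k, S.point = x ∧ IsGeneratedBy S.1.bundle S.1.space}

theorem generated_of_mem_S0 {S : SystemG0 K n d k} (hS : S.point ∈ S0 K n d k) :
    IsGeneratedBy S.1.bundle S.1.space := by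
  obtain ⟨T, hT, hgen⟩ := hS
  obtain ⟨A, hA1, hA2⟩ := (point_eq T S).1 hT
  exact iso_generatedBy hA1 hA2 hgen

theorem S0_nonempty (hK : IsCurve K) (hg3 : 3 ≤ genus K) (hne : HasNoPencilOfDegreeTwo K) :
    (S0 K (2 * genus K - 2) (4 * genus K - 3) (2 * genus K)).Nonempty := by
  obtain ⟨S, hS1, hS2⟩ := exists_system hK hg3 hne
  exact ⟨_, ⟨S, G0_of_stable' hK (by omega) (by omega) S hS1⟩, rfl, hS2⟩

theorem dualSpan_exists (hK : IsCurve K) (hg3 : 3 ≤ genus K)
    (S : CoherentSystem K (2 * genus K - 2) (4 * genus K - 3) (2 * genus K)) (hS : IsInG0 S)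
    (hgen : IsGeneratedBy S.bundle S.space) :
    ∃ T : CoherentSystem K 2 (4 * genus K - 3) (2 * genus K), IsDualSpan S T :=
  exists_dualSpan' hK S (stable_of_G0' hK hg3 S hS) (by omega) (by omega) (by omega) hgen

end Pool.Agent.W525.BA
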