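import Pool.Agent.W525.Minors

/-!
# Kernel bundles of globally generated line bundles
-/

open scoped WithZero Matrix IntermediateField
open WithZero

set_option linter.unusedSectionVars false
set_option linter.unusedVariables false

namespace Pool.Agent.W525.BA

open Pool.Agent.Helper395.CS hiding genus
open Pool.Agent.Helper395.BC

variable {K : Type} [Field K] [Algebra ℂ K] {n m q k r : ℕ}

/-- a globally generated line bundle with a basis of its space of sections -/
structure GG (L : LineBundle K) (c : Fin r → K) : Prop where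
  mem : ∀ i, c i ∈ H0 L
  span : ∀ f ∈ H0 L, ∃ a : Fin r → ℂ, f = ∑ i, a i • c i
  indep : ∀ a : Fin r → ℂ, ∑ i, a i • c i = 0 → a = 0
  gen : ∀ v : Point K, ∃ i, v.val (c i) = v.val (L.frame v : K)

theorem exists_GG (L : LineBundle K) (hr : 0 < r) (h3 : Module.finrank ℂ (H0 L) = r)
    (h : ∀ v, Module.finrank ℂ (H0 (lsub L v)) < r) : ∃ c : Fin r → K, GG L c := by
  have hfin : FiniteDimensional ℂ (H0 L) := Module.finite_of_finrank_pos (by omega)
  let b : Module.Basis (Fin r) ℂ (H0 L) := Module.finBasisOfFinrankEq ℂ (H0 L) h3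
  have hspan : ∀ f ∈ H0 L, ∃ a : Fin r → ℂ, f = ∑ i, a i • (b i : K) := by
    intro f hf
    refine ⟨fun i => b.repr ⟨f, hf⟩ i, ?_⟩
    have := congrArg Subtype.val (b.sum_repr ⟨f, hf⟩)
    rw [AddSubmonoidClass.coe_finsetSum] at this
    exact this.symm
  refine ⟨fun i => b i, fun i => (b i).2, hspan, ?_, ?_⟩
  · intro a ha
    have h1 : ∑ i, a i • b i = 0 := by
      apply Subtype.ext
      rw [AddSubmonoidClass.coe_finsetSum]
      exact ha
    funext i
    exact Fintype.linearIndependent_iff.1 b.linearIndependent a h1 i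
  · intro v
    by_contra hcon
    push Not at hcon
    obtain ⟨s, hs, hv⟩ := exists_generator L v (by rw [h3]; exact h v)
    obtain ⟨a, rfl⟩ := hspan s hs
    have h2 : v.val (∑ i, a i • (b i : K)) < v.val (L.frame v : K) := by
      refine Valuation.map_sum_lt _ (frame_pos L v).ne' fun i _ => ?_
      rw [Algebra.smul_def, map_mul]
      refine (mul_le_of_le_one_left' (v.const_le _)).trans_lt ?_
      exact lt_of_le_of_ne ((b i).2 v) (hcon i)
    exact h2.ne hv

/-- generation -/
theorem GG.exists_coord {L : LineBundle K} {c : Fin r → K} (h : GG L c) (v : Point K) {z : K}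
    (hz : z ∈ L.stalk v) : ∃ t : Fin r → K, v.Reg t ∧ ∑ i, c i * t i = z := by
  classical
  obtain ⟨i, hi⟩ := h.gen v
  have hci : c i ≠ 0 := by
    intro h0
    rw [h0, map_zero] at hi
    exact (frame_pos L v).ne hi
  refine ⟨Pi.single i (z / c i), ?_, ?_⟩
  · intro l
    rcases eq_or_ne l i with rfl | hl
    · rw [Pi.single_eq_same, map_div₀, hi, div_le_one₀ (frame_pos L v)]
      exact hz
    · rw [Pi.single_eq_of_ne hl]; simp
  · rw [Finset.sum_eq_single i]
    · rw [Pi.single_eq_same, mul_div_cancel₀ _ hci]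
    · intro l _ hl
      rw [Pi.single_eq_of_ne hl, mul_zero]
    · simp

theorem GG.ne_zero {L : LineBundle K} {c : Fin r → K} (h : GG L c) (i : Fin r) : c i ≠ 0 := by
  classical
  intro h0
  have h1 := h.indep (Pi.single i 1) (by
    rw [Finset.sum_eq_single i]
    · rw [h0, smul_zero]
    · intro l _ hl
      rw [Pi.single_eq_of_ne hl, zero_smul]
    · simp)
  have h2 := congrFun h1 i
  rw [Pi.single_eq_same] at h2
  exact one_ne_zero h2

/-- the dot product -/
def dotg (c : Fin r → K) : (Fin r → K) →ₗ[K] (Fin 1 → K) where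
  toFun t := fun _ => ∑ i, c i * t i
  map_add' s t := by
    funext _
    change _ = ∑ i, c i * s i + ∑ i, c i * t i
    rw [← Finset.sum_add_distrib]
    exact Finset.sum_congr rfl fun i _ => mul_add _ _ _
  map_smul' a t := by
    funext _
    change _ = a * ∑ i, c i * t i
    rw [Finset.mul_sum]
    exact Finset.sum_congr rfl fun i _ => by
      rw [Pi.smul_apply, smul_eq_mul]; ring

theorem dotg_apply (c : Fin r → K) (t : Fin r → K) (i : Fin 1) : dotg c t i = ∑ l, c l * t l := rfl

theorem GG.dotg_surjective (hK : IsCurve K) {L : LineBundle K} {c : Fin r → K} (h : GG L c) :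
    Function.Surjective (dotg c) := by
  classical
  intro z
  obtain ⟨v⟩ := point_nonempty hK
  obtain ⟨i0, -⟩ := h.gen v
  refine ⟨Pi.single i0 (z 0 / c i0), ?_⟩
  funext i
  rw [Subsingleton.elim i 0, dotg_apply, Finset.sum_eq_single i0]
  · rw [Pi.single_eq_same, mul_div_cancel₀ _ (h.ne_zero i0)]
  · intro l _ hl
    rw [Pi.single_eq_of_ne hl, mul_zero]
  · simp

theorem GG.ker_finrank (hK : IsCurve K) {L : LineBundle K} {c : Fin r → K} (h : GG L c) :
    Module.finrank K (LinearMap.ker (dotg c)) + 1 = r := by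
  have h1 := LinearMap.finrank_range_add_finrank_ker (dotg c)
  rw [LinearMap.range_eq_top.2 (h.dotg_surjective hK), finrank_top] at h1
  simp at h1
  omega

/-- the bundle `R` is the subbundle of `𝒪 ^ r` with generic fibre the image of `ψ`, contained in the
kernel of `c` -/
structure SubK (c : Fin r → K) (R : Bundle K m) (ψ : (Fin m → K) →ₗ[K] (Fin r → K)) : Prop where
  inj : Function.Injective ψ
  stalk : ∀ (v : Point K) x, x ∈ R.stalk v ↔ v.Reg (ψ x)
  rel : ∀ x, ∑ i, c i * ψ x i = 0

/-- the degree of the kernel bundle of `L` -/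
theorem SubK.degree (hK : IsCurve K) {L : LineBundle K} {c : Fin r → K} (h : GG L c)
    {R : Bundle K m} {ψ : (Fin m → K) →ₗ[K] (Fin r → K)} (hR : SubK c R ψ) (hm : m + 1 = r) :
    R.degree = -L.degree := by
  have hker : LinearMap.ker (dotg c) = LinearMap.range ψ := by
    symm
    apply Submodule.eq_of_le_of_finrank_eq
    · rintro _ ⟨x, rfl⟩
      rw [LinearMap.mem_ker]
      funext i
      exact hR.rel x
    · have h1 := h.ker_finrank hK
      rw [LinearMap.finrank_range_of_inj hR.inj]
      simp
      omega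
  have h2 := (degree_exact hK (E := trivialBundle K r) (F := R) (G := lsum L 1) (P := dotg c)
    (j := ψ) ⟨hR.inj, fun v x => by rw [hR.stalk, mem_trivial]⟩ (h.dotg_surjective hK)
    (fun s hs => by rw [← hker]; exact hs) (fun x => by funext i; exact hR.rel x)
    (fun v s hs => by
      rw [mem_trivial] at hs
      rw [mem_lsum_stalk]
      intro i
      rw [dotg_apply]
      change v.val _ ≤ _
      refine Valuation.map_sum_le _ fun l _ => ?_
      rw [map_mul]
      exact (mul_le_of_le_one_right' (hs l)).trans (h.mem l v))).2 (fun v t ht => by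
        rw [mem_lsum_stalk] at ht
        obtain ⟨s, hs, hst⟩ := h.exists_coord v (ht 0)
        refine ⟨s, (mem_trivial v s).2 hs, ?_⟩
        funext i
        rw [Subsingleton.elim i 0]
        exact hst)
  rw [trivialBundle_degree, lsum_degree, Nat.cast_one, one_mul] at h2
  omega

theorem SubK.rank_le (hK : IsCurve K) {L : LineBundle K} {c : Fin r → K} (h : GG L c)
    {R : Bundle K m} {ψ : (Fin m → K) →ₗ[K] (Fin r → K)} (hR : SubK c R ψ) : m + 1 ≤ r := by
  have h1 : LinearMap.range ψ ≤ LinearMap.ker (dotg c) := by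
    rintro _ ⟨x, rfl⟩
    rw [LinearMap.mem_ker]
    funext i
    exact hR.rel x
  have h2 := Submodule.finrank_mono h1
  have h3 := h.ker_finrank hK
  rw [LinearMap.finrank_range_of_inj hR.inj] at h2
  simp at h2
  omega

/-- subbundles of the kernel bundle which are not too large have small degree -/
theorem SubK.degree_le (hK : IsCurve K) (hg : genus K ≠ 0) (hs : SmallH0 K) {L : LineBundle K}
    {c : Fin r → K} (h : GG L c) {R : Bundle K m} {ψ : (Fin m → K) →ₗ[K] (Fin r → K)}
    (hR : SubK c R ψ) (hm : 1 ≤ m) (hmg : m + 2 ≤ genus K) : R.degree ≤ -(2 * m + 1) := by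
  classical
  obtain ⟨v⟩ := point_nonempty hK
  let B : Matrix (Fin r) (Fin m) K := LinearMap.toMatrix' ψ
  have hB : ∀ x, B *ᵥ x = ψ x := fun x => LinearMap.toMatrix'_mulVec ψ x
  obtain ⟨D, hD⟩ := exists_minors hK v m r B (by
    intro x y hxy
    apply hR.inj
    rw [← hB, ← hB]
    exact hxy) (by
    intro x d hx
    apply h.indep
    rw [← hR.rel x]
    refine Finset.sum_congr rfl fun i _ => ?_
    rw [← hB, hx, Algebra.smul_def, mul_comm])
  have hmem : ∀ i, minor (D i) B ∈ H0 (linv R.det) := by
    intro i w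
    change w.val (minor (D i) B) ≤ w.val (((R.det.frame w)⁻¹ : Kˣ) : K)
    have h1 : w.val (minor (D i) (B * (R.frame w).1)) ≤ 1 := by
      apply w.val_det_le_one
      intro a b
      rw [Matrix.mul_apply]
      refine Valuation.map_sum_le _ fun p _ => ?_
      rw [map_mul]
      refine mul_le_one' (w.const_le _) ?_
      have h2 : (R.frame w).1 *ᵥ (Pi.single b 1) ∈ R.stalk w := by
        apply frame_mulVec_mem
        intro l
        rcases eq_or_ne l b with rfl | hl
        · rw [Pi.single_eq_same, map_one]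
        · rw [Pi.single_eq_of_ne hl]; simp
      have h3 := (hR.stalk w _).1 h2 p
      rw [← hB, Matrix.mulVec_mulVec, Matrix.mulVec_single_one] at h3
      exact h3
    rw [minor_mul, map_mul] at h1
    rw [Units.val_inv_eq_inv_val, map_inv₀, ← mul_one (w.val (R.det.frame w : K))⁻¹,
      le_inv_mul_iff₀ (frame_pos _ w), mul_comm]
    exact h1
  have hfin := H0_finite hK hg (linv R.det)
  have hLI : LinearIndependent ℂ (fun i => (⟨minor (D i) B, hmem i⟩ : H0 (linv R.det))) := by
    rw [Fintype.linearIndependent_iff] at hD ⊢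
    intro g hg
    apply hD
    have := congrArg Subtype.val hg
    rw [AddSubmonoidClass.coe_finsetSum] at this
    exact this
  have h1 := hLI.fintype_card_le_finrank
  rw [Fintype.card_fin] at h1
  have h2 := degree_ge hK hg hs hm hmg h1
  have h3 : (linv R.det).degree = -R.degree := linv_degree _
  omega

/-- proportionality -/
theorem prop_of_ker' {c β : Fin r → K} {i0 : Fin r} (hc : c i0 ≠ 0)
    (h : ∀ t : Fin r → K, ∑ i, c i * t i = 0 → ∑ i, β i * t i = 0) (l : Fin r) :
    β l = β i0 / c i0 * c l := by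
  classical
  have hsum : ∀ γ : Fin r → K, ∑ i, γ i * (Pi.single l 1 - Pi.single i0 (c l / c i0) : Fin r → K) i =
      γ l - γ i0 * (c l / c i0) := by
    intro γ
    simp only [Pi.sub_apply, mul_sub, Finset.sum_sub_distrib]
    congr 1
    · rw [Finset.sum_eq_single l]
      · rw [Pi.single_eq_same, mul_one]
      · intro i _ hi
        rw [Pi.single_eq_of_ne hi, mul_zero]
      · simp
    · rw [Finset.sum_eq_single i0]
      · rw [Pi.single_eq_same]
      · intro i _ hi
        rw [Pi.single_eq_of_ne hi, mul_zero]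
      · simp
  have h1 := h _ ((hsum c).trans (by field_simp; ring))
  rw [hsum] at h1
  rw [sub_eq_zero] at h1
  rw [h1]
  ring

/-- regular functionals on the kernel bundle of `Ω` are constant (Max Noether's theorem) -/
theorem hom_const_can (hK : IsCurve K) (hg : genus K ≠ 0) (hs : SmallH0 K) (hg2 : 2 ≤ genus K)
    {c : Fin (genus K) → K} (h : GG (can hK hg) c) (θ : (Fin (genus K) → K) →ₗ[K] K)
    (hθ : ∀ (v : Point K) (t : Fin (genus K) → K), v.Reg t → ∑ i, c i * t i = 0 → v.val (θ t) ≤ 1) :
    ∃ C : Fin (genus K) → ℂ, ∀ t : Fin (genus K) → K, ∑ i, c i * t i = 0 →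
      θ t = ∑ i, C i • t i := by
  classical
  set κ := can hK hg with hκ
  set a : Fin (genus K) → K := fun l => θ (Pi.single l 1) with ha
  have hθa : ∀ t, θ t = ∑ l, a l * t l := by
    intro t
    conv_lhs => rw [← Finset.univ_sum_single t, map_sum]
    refine Finset.sum_congr rfl fun l _ => ?_
    have : (Pi.single l (t l) : Fin (genus K) → K) = t l • Pi.single l 1 := by
      rw [← Pi.single_smul, smul_eq_mul, mul_one]
    rw [this, map_smul, smul_eq_mul, mul_comm]
  choose i0 hi0 using h.gen
  set τ : Point K → K := fun v => a (i0 v) / c (i0 v) with hτ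
  have hreg : ∀ (v : Point K) l, v.val (a l - τ v * c l) ≤ 1 := by
    intro v l
    have hc0 := h.ne_zero (i0 v)
    have hq : v.val (c l / c (i0 v)) ≤ 1 := by
      rw [map_div₀, hi0, div_le_one₀ (frame_pos κ v)]
      exact h.mem l v
    have h1 := hθ v (Pi.single l 1 - Pi.single (i0 v) (c l / c (i0 v))) (by
      intro i
      rw [Pi.sub_apply]
      refine Valuation.map_sub_le _ ?_ ?_
      · rcases eq_or_ne i l with rfl | hi
        · rw [Pi.single_eq_same, map_one]
        · rw [Pi.single_eq_of_ne hi]; simp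
      · rcases eq_or_ne i (i0 v) with rfl | hi
        · rw [Pi.single_eq_same]; exact hq
        · rw [Pi.single_eq_of_ne hi]; simp) (by
      simp only [Pi.sub_apply, mul_sub, Finset.sum_sub_distrib]
      rw [Finset.sum_eq_single l, Finset.sum_eq_single (i0 v)]
      · rw [Pi.single_eq_same, Pi.single_eq_same]
        field_simp
        ring
      · intro i _ hi
        rw [Pi.single_eq_of_ne hi, mul_zero]
      · simp
      · intro i _ hi
        rw [Pi.single_eq_of_ne hi, mul_zero]
      · simp)
    have h2 : θ (Pi.single l 1 - Pi.single (i0 v) (c l / c (i0 v))) = a l - τ v * c l := by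
      have : (Pi.single (i0 v) (c l / c (i0 v)) : Fin (genus K) → K) =
          (c l / c (i0 v)) • Pi.single (i0 v) 1 := by
        rw [← Pi.single_smul, smul_eq_mul, mul_one]
      rw [map_sub, this, map_smul, smul_eq_mul, hτ]
      change a l - c l / c (i0 v) * a (i0 v) = a l - a (i0 v) / c (i0 v) * c l
      ring
    rwa [h2] at h1
  by_contra hcon
  -- `a` is not constant modulo multiples of `c`
  have hnc : ∀ f : K, ∃ l, ∀ z : ℂ, a l - f * c l ≠ algebraMap ℂ K z := by
    intro f
    by_contra hf
    push Not at hf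
    choose C hC using hf
    apply hcon
    refine ⟨C, fun t ht => ?_⟩
    have h1 : ∑ l, (a l - f * c l) * t l = ∑ l, a l * t l - f * ∑ l, c l * t l := by
      rw [Finset.mul_sum, ← Finset.sum_sub_distrib]
      exact Finset.sum_congr rfl fun l _ => by ring
    rw [ht, mul_zero, sub_zero] at h1
    rw [hθa, ← h1]
    exact Finset.sum_congr rfl fun l _ => by rw [hC, Algebra.smul_def]
  obtain ⟨v⟩ := point_nonempty hK
  -- the linear forms
  let φ1 : ℂ × (Fin (genus K) → ℂ) →ₗ[ℂ] K :=
    { toFun := fun x => ∑ l, x.2 l • c l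
      map_add' := fun x y => by
        rw [← Finset.sum_add_distrib]
        exact Finset.sum_congr rfl fun l _ => by rw [Prod.snd_add, Pi.add_apply, add_smul]
      map_smul' := fun z x => by
        rw [RingHom.id_apply, Finset.smul_sum]
        exact Finset.sum_congr rfl fun l _ => by
          rw [Prod.smul_snd, Pi.smul_apply, smul_eq_mul, mul_smul] }
  have hφ1 : ∀ x, φ1 x = ∑ l, x.2 l • c l := fun x => rfl
  let φ2 : (f : K) → ℂ × (Fin (genus K) → ℂ) →ₗ[ℂ] K := fun f =>
    { toFun := fun x => x.1 • (1 : K) + ∑ l, x.2 l • (a l - f * c l)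
      map_add' := fun x y => by
        rw [Prod.fst_add, add_smul]
        have : ∑ l, (x + y).2 l • (a l - f * c l) = ∑ l, x.2 l • (a l - f * c l) +
            ∑ l, y.2 l • (a l - f * c l) := by
          rw [← Finset.sum_add_distrib]
          exact Finset.sum_congr rfl fun l _ => by rw [Prod.snd_add, Pi.add_apply, add_smul]
        rw [this]
        abel
      map_smul' := fun z x => by
        rw [RingHom.id_apply, smul_add, Finset.smul_sum, Prod.smul_fst, smul_eq_mul, mul_smul]
        congr 1
        exact Finset.sum_congr rfl fun l _ => by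
          rw [Prod.smul_snd, Pi.smul_apply, smul_eq_mul, mul_smul] }
  have hφ2 : ∀ f x, φ2 f x = x.1 • (1 : K) + ∑ l, x.2 l • (a l - f * c l) := fun f x => rfl
  have hφ12 : ∀ f f' x, φ2 f x = φ2 f' x + (f' - f) * φ1 x := by
    intro f f' x
    rw [hφ2, hφ2, hφ1, add_assoc, Finset.mul_sum, ← Finset.sum_add_distrib]
    congr 1
    refine Finset.sum_congr rfl fun l _ => ?_
    rw [Algebra.smul_def, Algebra.smul_def, Algebra.smul_def]
    ring
  have hφ1inj : ∀ x f, φ1 x = 0 → φ2 f x = 0 → x = 0 := by
    intro x f h1 h2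
    have h3 := h.indep x.2 h1
    rw [hφ2, h3] at h2
    simp only [Pi.zero_apply, zero_smul, Finset.sum_const_zero, add_zero] at h2
    rw [Algebra.smul_def, mul_one] at h2
    exact Prod.ext ((map_eq_zero _).1 h2) h3
  have hφ1v : ∀ (w : Point K) x, w.val (φ1 x) ≤ w.val (κ.frame w : K) := by
    intro w x
    have : φ1 x ∈ H0 κ := by
      rw [hφ1]
      exact Submodule.sum_mem _ fun l _ => Submodule.smul_mem _ _ (h.mem l)
    exact this w
  have hφ2v : ∀ (w : Point K) x, w.val (φ2 (τ w) x) ≤ 1 := by
    intro w x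
    rw [hφ2]
    refine Valuation.map_add_le _ ?_ (Valuation.map_sum_le _ fun l _ => ?_)
    · rw [Algebra.smul_def, mul_one]
      exact w.const_le _
    · rw [Algebra.smul_def, map_mul]
      exact mul_le_one' (w.const_le _) (hreg w l)
  -- residues
  have hres : ∀ (φ : ℂ × (Fin (genus K) → ℂ) →ₗ[ℂ] K) (hφ : ∀ x, v.val (φ x) ≤ 1),
      ∃ ρ : ℂ × (Fin (genus K) → ℂ) →ₗ[ℂ] ℂ, ∀ x, ρ x = 0 → v.val (φ x) < 1 := by
    intro φ hφ
    refine ⟨{ toFun := fun x => resHom hK v ⟨φ x, hφ x⟩
              map_add' := fun x y => ?_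
              map_smul' := fun z x => ?_ }, fun x hx => ?_⟩
    · rw [← map_add]
      congr 1
      apply Subtype.ext
      exact map_add φ x y
    · rw [RingHom.id_apply, smul_eq_mul]
      have h1 : (⟨φ (z • x), hφ _⟩ : v.val.integer) =
          ⟨algebraMap ℂ K z, v.const_le z⟩ * ⟨φ x, hφ x⟩ := by
        apply Subtype.ext
        change φ (z • x) = algebraMap ℂ K z * φ x
        rw [map_smul, Algebra.smul_def]
      rw [h1, map_mul, resHom_const]
    · exact (resHom_eq_zero_iff hK v ⟨φ x, hφ x⟩).1 hx
  have hκ0 : (κ.frame v : K) ≠ 0 := (κ.frame v).ne_zero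
  obtain ⟨ρ1, hρ1⟩ := hres ((LinearMap.mulLeft ℂ (κ.frame v : K)⁻¹) ∘ₗ φ1) (by
    intro x
    change v.val ((κ.frame v : K)⁻¹ * φ1 x) ≤ 1
    rw [map_mul, map_inv₀, inv_mul_le_one₀ (frame_pos κ v)]
    exact hφ1v v x)
  obtain ⟨ρ2, hρ2⟩ := hres (φ2 (τ v)) (hφ2v v)
  have hker : LinearMap.ker (ρ1.prod ρ2) ≠ ⊥ := by
    apply LinearMap.ker_ne_bot_of_finrank_lt
    simp
    omega
  obtain ⟨u, hu, hu0⟩ := Submodule.exists_mem_ne_zero_of_ne_bot hker
  rw [LinearMap.ker_prod] at hu
  have hu1 : v.val (φ1 u) < v.val (κ.frame v : K) := by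
    have h1 := hρ1 u hu.1
    change v.val ((κ.frame v : K)⁻¹ * φ1 u) < 1 at h1
    rwa [map_mul, map_inv₀, inv_mul_lt_one₀ (frame_pos κ v)] at h1
  have hu2 : v.val (φ2 (τ v) u) < 1 := hρ2 u hu.2
  set y := φ1 u with hy
  have hy0 : y ≠ 0 := by
    intro h0
    have h1 := h.indep u.2 h0
    apply hu0
    rw [hφ2, h1] at hu2
    simp only [Pi.zero_apply, zero_smul, Finset.sum_const_zero, add_zero] at hu2
    rw [Algebra.smul_def, mul_one] at hu2
    refine Prod.ext ?_ h1
    by_contra h2
    rw [v.const _ h2] at hu2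
    exact lt_irrefl _ hu2
  obtain ⟨f, hf⟩ : ∃ f, φ2 f u = 0 := by
    refine ⟨φ2 0 u / y, ?_⟩
    rw [hφ12 _ 0, zero_sub, neg_mul, div_mul_cancel₀ _ hy0, add_neg_cancel]
  -- the line bundle `B`
  let opt : Option (Fin (genus K)) → K := fun o => o.elim 1 fun l => a l - f * c l
  choose om hom using fun w : Point K => Finite.exists_max fun o => w.val (opt o)
  have hom1 : ∀ w : Point K, 1 ≤ w.val (opt (om w)) := by
    intro w
    have h1 := hom w none
    change w.val (1 : K) ≤ _ at h1
    rwa [map_one] at h1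
  have homl : ∀ (w : Point K) l, w.val (a l - f * c l) ≤ w.val (opt (om w)) := fun w l =>
    hom w (some l)
  have hom0 : ∀ w : Point K, opt (om w) ≠ 0 := by
    intro w h0
    have := hom1 w
    rw [h0, map_zero] at this
    exact absurd this (by simp)
  let B : LineBundle K :=
    { frame := fun w => Units.mk0 (opt (om w)) (hom0 w)
      finite := by
        refine (Set.finite_iUnion fun l : Fin (genus K) =>
          finite_not_reg hK (a l - f * c l)).subset fun w hw => ?_
        by_contra hcon'
        rw [Set.mem_iUnion] at hcon'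
        push Not at hcon'
        apply hw
        change w.val (opt (om w)) = 1
        refine le_antisymm ?_ (hom1 w)
        rcases om w with _ | l
        · change w.val (1 : K) ≤ 1
          rw [map_one]
        · have := hcon' l
          rw [Set.mem_ofPred_eq] at this
          exact not_lt.1 this }
  have hBv : ∀ w : Point K, w.val (B.frame w : K) = w.val (opt (om w)) := fun w => rfl
  -- bound for `B`
  have hB1 : ∀ w : Point K, w.val (B.frame w : K) = 1 ∨
      w.val (B.frame w : K) ≤ w.val (f - τ w) * w.val (κ.frame w : K) := by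
    intro w
    by_cases h1 : w.val (B.frame w : K) = 1
    · exact Or.inl h1
    · right
      have h2 : 1 < w.val (B.frame w : K) := lt_of_le_of_ne (hom1 w) (Ne.symm h1)
      rw [hBv] at h2 ⊢
      rcases ho : om w with _ | l
      · rw [ho] at h2
        change 1 < w.val (1 : K) at h2
        rw [map_one] at h2
        exact absurd h2 (lt_irrefl _)
      · rw [ho] at h2
        change 1 < w.val (a l - f * c l) at h2
        change w.val (a l - f * c l) ≤ _
        have h3 : a l - f * c l = (a l - τ w * c l) - (f - τ w) * c l := by ring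
        by_contra h4
        push Not at h4
        have h5 : w.val (a l - f * c l) < w.val (a l - f * c l) := by
          conv_lhs => rw [h3]
          refine Valuation.map_sub_lt _ ((hreg w l).trans_lt h2) ?_
          rw [map_mul]
          exact (mul_le_mul_right (h.mem l w) _).trans_lt h4
        exact lt_irrefl _ h5
  have hmemH : ∀ x, φ2 f x ∈ H0 B := by
    intro x
    refine add_mem (Submodule.smul_mem _ _ ?_) (Submodule.sum_mem _ fun l _ =>
      Submodule.smul_mem _ _ ?_)
    · intro w
      change w.val (1 : K) ≤ _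
      rw [map_one]
      exact hom1 w
    · exact fun w => homl w l
  have hkerH : ∀ x, φ2 f x = 0 → φ1 x ∈ H0 (lmul κ (linv B)) := by
    intro x hx w
    rw [mem_lmul_linv]
    change w.val (φ1 x * (B.frame w : K)) ≤ w.val (κ.frame w : K)
    rw [map_mul]
    rcases hB1 w with h1 | h1
    · rw [h1, mul_one]
      exact hφ1v w x
    · refine (mul_le_mul_right h1 _).trans ?_
      rw [← mul_assoc]
      apply mul_le_of_le_one_left'
      have h2 := hφ2v w x
      rw [hφ12 _ f, hx, zero_add, map_mul] at h2
      rwa [mul_comm]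
  have f1 := H0_finite hK hg B
  have f2 := H0_finite hK hg (lmul κ (linv B))
  -- dimension count
  let Ev : ℂ × (Fin (genus K) → ℂ) →ₗ[ℂ] H0 B := (φ2 f).codRestrict (H0 B) hmemH
  have hEv : ∀ x, Ev x = 0 ↔ φ2 f x = 0 := by
    intro x
    rw [Subtype.ext_iff]
    rfl
  have hd1 := LinearMap.finrank_range_add_finrank_ker Ev
  have hd2 : Module.finrank ℂ (ℂ × (Fin (genus K) → ℂ)) = genus K + 1 := by
    simp
    omega
  have hd3 := Submodule.finrank_le (LinearMap.range Ev)
  let F : LinearMap.ker Ev →ₗ[ℂ] H0 (lmul κ (linv B)) :=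
    (φ1 ∘ₗ (LinearMap.ker Ev).subtype).codRestrict _ (fun x => hkerH x.1 ((hEv x.1).1 x.2))
  have hF : Function.Injective F := by
    rw [← LinearMap.ker_eq_bot, LinearMap.ker_eq_bot']
    intro x hx
    apply Subtype.ext
    exact hφ1inj x.1 f (congrArg Subtype.val hx) ((hEv x.1).1 x.2)
  have hd4 := LinearMap.finrank_le_finrank_of_injective hF
  rw [hd2] at hd1
  -- `h⁰(B) ≥ 2`
  have hB2 : 2 ≤ Module.finrank ℂ (H0 B) := by
    by_contra hlt
    have h1 : Module.finrank ℂ (H0 B) ≤ 1 := by omega
    obtain ⟨z, hz⟩ := finrank_le_one_iff.1 h1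
    obtain ⟨l, hl⟩ := hnc f
    have m1 : (1 : K) ∈ H0 B := fun w => by
      change w.val (1 : K) ≤ _
      rw [map_one]
      exact hom1 w
    have m2 : a l - f * c l ∈ H0 B := fun w => homl w l
    obtain ⟨p, hp⟩ := hz ⟨1, m1⟩
    obtain ⟨p', hp'⟩ := hz ⟨_, m2⟩
    have hp1 : p • (z : K) = 1 := congrArg Subtype.val hp
    have hp2 : p' • (z : K) = a l - f * c l := congrArg Subtype.val hp'
    have hp0 : p ≠ 0 := by
      rintro rfl
      rw [zero_smul] at hp1
      exact zero_ne_one hp1
    apply hl (p' / p)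
    have h3 : (p' / p) • (1 : K) = a l - f * c l := by
      rw [← hp1, smul_smul, div_mul_cancel₀ _ hp0, hp2]
    rw [← h3, Algebra.smul_def, mul_one]
  -- Clifford
  have hcl : Module.finrank ℂ (H0 (lmul κ (linv B))) ≤ 1 := by
    by_contra hlt
    have := cliff hK hg hs B.degree.toNat B (by omega) hB2 (by rw [← hκ]; omega)
    rw [← hκ] at this
    omega
  have hrr := (rrL hK hg B).2
  rw [← hκ] at hrr
  have hpos : 0 < (lmul κ (linv B)).degree := by
    rw [← lprin_degree hK (Units.mk0 y hy0)]
    have hmem := hkerH u hf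
    refine ldegree_lt hK (v := v) (fun w => hmem w) ?_
    change v.val y < v.val ((κ.frame v * (B.frame v)⁻¹ : Kˣ) : K)
    rw [Units.val_mul, map_mul, Units.val_inv_eq_inv_val, map_inv₀, ← div_eq_mul_inv,
      lt_div_iff₀ (frame_pos B v)]
    rcases hB1 v with h1 | h1
    · rw [h1, mul_one]
      exact hu1
    · refine (mul_le_mul_right h1 _).trans_lt ?_
      rw [← mul_assoc]
      refine mul_lt_of_lt_one_left (frame_pos κ v) ?_
      rw [hφ12 _ f, hf, zero_add, map_mul] at hu2
      rwa [mul_comm]
  rw [lmul_degree, linv_degree, hκ, can_degree] at hpos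
  omega

end Pool.Agent.W525.BA
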