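import Pool.Agent.W525.Cliff

/-!
# The number of independent maximal minors

Let `B` be a `k × q` matrix over a function field, with injective associated linear map, such that
the image of `B` contains no non-zero constant vector. Then the maximal minors of `B` span a space of
dimension at least `q + 1` over `ℂ` (Paranjape-Ramanan).
-/

open scoped WithZero Matrix IntermediateField
open WithZero

set_option linter.unusedSectionVars false
set_option linter.unusedVariables false

namespace Pool.Agent.W525.BA

open Pool.Agent.Helper395.CS hiding genus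
open Pool.Agent.Helper395.BC

variable {K : Type} [Field K] [Algebra ℂ K] {n m q k : ℕ}

/-- the image of `B` contains no non-zero constant vector -/
def NoConst (B : Matrix (Fin k) (Fin q) K) : Prop :=
  ∀ (x : Fin q → K) (c : Fin k → ℂ), B *ᵥ x = (fun i => algebraMap ℂ K (c i)) → c = 0

/-- the minor of `B` defined by the `q` constant functionals `D` -/
noncomputable def minor (D : Matrix (Fin q) (Fin k) ℂ) (B : Matrix (Fin k) (Fin q) K) : K :=
  (D.map (algebraMap ℂ K) * B).det

theorem minor_mul (D : Matrix (Fin q) (Fin k) ℂ) (B : Matrix (Fin k) (Fin q) K)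
    (A : Matrix (Fin q) (Fin q) K) : minor D (B * A) = minor D B * A.det := by
  rw [minor, minor, ← Matrix.mul_assoc, Matrix.det_mul]

theorem exists_minors (hK : IsCurve K) (v : Point K) : ∀ (q k : ℕ) (B : Matrix (Fin k) (Fin q) K),
    Function.Injective B.mulVec → NoConst B →
    ∃ D : Fin (q + 1) → Matrix (Fin q) (Fin k) ℂ, LinearIndependent ℂ (fun i => minor (D i) B) := by
  classical
  intro q
  induction q with
  | zero =>
    intro k B hB hc
    refine ⟨fun _ => 0, ?_⟩
    rw [Fintype.linearIndependent_iff]
    intro g hg i
    have h1 : ∀ i : Fin 1, minor (q := 0) (k := k) 0 B = 1 := fun i => Matrix.det_isEmpty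
    have h2 : ∑ i : Fin (0 + 1), g i • (1 : K) = 0 := by
      rw [← hg]
      exact Finset.sum_congr rfl fun i _ => by rw [h1 0]
    rw [Fin.sum_univ_succ, Fin.sum_univ_zero, add_zero, Algebra.smul_def, mul_one] at h2
    rw [show i = 0 from Fin.ext (by omega)]
    exact (map_eq_zero _).1 h2
  | succ q ih =>
    intro k B hB hc
    -- the minor with maximal valuation
    obtain ⟨e0, he0⟩ := exists_minor B hB
    have : Nonempty (Fin (q + 1) → Fin k) := ⟨e0⟩
    obtain ⟨e, he⟩ := Finite.exists_max fun e : Fin (q + 1) → Fin k => v.val (B.submatrix e id).det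
    set M := B.submatrix e id with hM
    have hM0 : M.det ≠ 0 := by
      intro h0
      have := he e0
      rw [h0, map_zero] at this
      exact v.val_ne_zero he0 (le_antisymm this zero_le)
    have hMu : IsUnit M.det := isUnit_iff_ne_zero.2 hM0
    set P := B * M⁻¹ with hP
    have hBP : B = P * M := by
      rw [hP, Matrix.mul_assoc, Matrix.nonsing_inv_mul _ hMu, Matrix.mul_one]
    have hPreg : ∀ l i, v.val (P l i) ≤ 1 := by
      intro l i
      have h1 : P l i = (B.submatrix (Function.update e i l) id).det / M.det := by
        have h2 : (B.submatrix (Function.update e i l) id) = M.updateRow i (B l) := by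
          ext a b
          rw [Matrix.submatrix_apply, Matrix.updateRow_apply, Function.update_apply]
          split_ifs with h
          · rfl
          · rfl
        rw [h2, ← Matrix.cramer_transpose_apply, Matrix.cramer_eq_adjugate_mulVec,
          ← Matrix.adjugate_transpose, hP, Matrix.inv_def, Ring.inverse_eq_inv', Matrix.mul_smul,
          Matrix.smul_apply, smul_eq_mul, Matrix.mulVec_transpose, div_eq_inv_mul]
        rfl
      rw [h1, map_div₀, div_le_one₀ (zero_lt_iff.2 (v.val_ne_zero hM0))]
      exact he _
    have hPe : P.submatrix e id = 1 := by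
      have : P.submatrix e id = M * M⁻¹ := by
        rw [hP, hM]
        ext a b
        rfl
      rw [this, Matrix.mul_nonsing_inv _ hMu]
    have hPe' : ∀ i j, P (e i) j = (1 : Matrix (Fin (q + 1)) (Fin (q + 1)) K) i j := by
      intro i j
      rw [← hPe]
      rfl
    have hPc : NoConst P := by
      intro x c hx
      apply hc (M⁻¹ *ᵥ x) c
      rw [Matrix.mulVec_mulVec, ← hP, hx]
    have hPinj : Function.Injective P.mulVec := by
      intro x y hxy
      have h1 : B *ᵥ (M⁻¹ *ᵥ x) = B *ᵥ (M⁻¹ *ᵥ y) := by
        rw [Matrix.mulVec_mulVec, Matrix.mulVec_mulVec, ← hP]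
        exact hxy
      have h2 := hB h1
      have h3 : M *ᵥ (M⁻¹ *ᵥ x) = M *ᵥ (M⁻¹ *ᵥ y) := by rw [h2]
      rwa [Matrix.mulVec_mulVec, Matrix.mulVec_mulVec, Matrix.mul_nonsing_inv _ hMu,
        Matrix.one_mulVec, Matrix.one_mulVec] at h3
    choose lam hlam using fun l i => exists_res hK v (hPreg l i)
    -- a constant functional which vanishes at `v`
    obtain ⟨l, j0, hlj⟩ : ∃ l j0, P l j0 ≠ algebraMap ℂ K (lam l j0) := by
      by_contra hcon
      push Not at hcon
      have h1 := hPc (Pi.single 0 1) (fun l => lam l 0) (by
        rw [Matrix.mulVec_single_one]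
        funext i
        exact hcon i 0)
      have h2 := hPe' 0 0
      rw [hcon, Matrix.one_apply_eq] at h2
      have h3 := congrFun h1 (e 0)
      beta_reduce at h3
      rw [h3, Pi.zero_apply, map_zero] at h2
      exact zero_ne_one h2
    let c : Fin k → ℂ := Pi.single l 1 - ∑ i, lam l i • Pi.single (e i) 1
    have hcP : ∀ j, ∑ a, algebraMap ℂ K (c a) * P a j = P l j - algebraMap ℂ K (lam l j) := by
      intro j
      have h1 : ∀ a, algebraMap ℂ K (c a) = (Pi.single l 1 : Fin k → K) a -
          ∑ i, algebraMap ℂ K (lam l i) * (Pi.single (e i) 1 : Fin k → K) a := by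
        intro a
        have h2 : ∀ b : Fin k, algebraMap ℂ K ((Pi.single b 1 : Fin k → ℂ) a) =
            (Pi.single b 1 : Fin k → K) a := by
          intro b
          rcases eq_or_ne a b with rfl | hab
          · rw [Pi.single_eq_same, Pi.single_eq_same, map_one]
          · rw [Pi.single_eq_of_ne hab, Pi.single_eq_of_ne hab, map_zero]
        change algebraMap ℂ K ((Pi.single l 1 - ∑ i, lam l i • Pi.single (e i) 1 : Fin k → ℂ) a) = _
        rw [Pi.sub_apply, map_sub, h2, Finset.sum_apply, map_sum]
        congr 1
        refine Finset.sum_congr rfl fun i _ => ?_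
        rw [Pi.smul_apply, smul_eq_mul, map_mul, h2]
      have h3 : ∀ b : Fin k, ∑ a, (Pi.single b 1 : Fin k → K) a * P a j = P b j := by
        intro b
        rw [Finset.sum_eq_single b]
        · rw [Pi.single_eq_same, one_mul]
        · intro a _ ha
          rw [Pi.single_eq_of_ne ha, zero_mul]
        · simp
      simp only [h1, sub_mul, Finset.sum_sub_distrib, h3, Finset.sum_mul]
      rw [Finset.sum_comm]
      congr 1
      simp only [mul_assoc, ← Finset.mul_sum, h3, hPe']
      rw [Finset.sum_eq_single j]
      · rw [Matrix.one_apply_eq, mul_one]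
      · intro i _ hi
        rw [Matrix.one_apply_ne hi, mul_zero]
      · simp
    set r : Fin (q + 1) → K := fun j => P l j - algebraMap ℂ K (lam l j) with hr
    have hr0 : r j0 ≠ 0 := sub_ne_zero.2 hlj
    have hrv : ∀ j, v.val (r j) < 1 := fun j => hlam l j
    -- the kernel of the functional
    let rf : (Fin (q + 1) → K) →ₗ[K] K := Fintype.linearCombination K r
    have hrf : ∀ x, rf x = ∑ j, x j * r j := fun x => rfl
    have hrfs : Function.Surjective rf := by
      intro z
      refine ⟨Pi.single j0 (z / r j0), ?_⟩
      rw [hrf, Finset.sum_eq_single j0]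
      · rw [Pi.single_eq_same, div_mul_cancel₀ _ hr0]
      · intro a _ ha
        rw [Pi.single_eq_of_ne ha, zero_mul]
      · simp
    obtain ⟨y, hy⟩ := hrfs 1
    have hker : Module.finrank K (LinearMap.ker rf) = q := by
      have h1 := LinearMap.finrank_range_add_finrank_ker rf
      rw [LinearMap.range_eq_top.2 hrfs, finrank_top] at h1
      simp at h1
      omega
    obtain ⟨jA, hjA, hjAr⟩ := exists_param (LinearMap.ker rf) hker
    let A : Matrix (Fin (q + 1)) (Fin q) K := LinearMap.toMatrix' jA
    have hA : ∀ x, A *ᵥ x = jA x := fun x => LinearMap.toMatrix'_mulVec jA x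
    have hAr : ∀ j, ∑ a, A a j * r a = 0 := by
      intro j
      have h1 : jA (Pi.single j 1) ∈ LinearMap.ker rf := by
        rw [← hjAr]
        exact ⟨_, rfl⟩
      rw [LinearMap.mem_ker, hrf] at h1
      rw [← h1]
      refine Finset.sum_congr rfl fun a _ => ?_
      rw [← hA, Matrix.mulVec_single_one]
      rfl
    obtain ⟨D', hD'⟩ := ih k (P * A) (by
      intro x z hxz
      apply hjA
      rw [← hA, ← hA]
      apply hPinj
      change P *ᵥ (A *ᵥ x) = P *ᵥ (A *ᵥ z)
      rw [Matrix.mulVec_mulVec, Matrix.mulVec_mulVec]
      exact hxz) (by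
      intro x d hx
      apply hPc (A *ᵥ x) d
      rw [Matrix.mulVec_mulVec]
      exact hx)
    let D1 : Fin (q + 1) → Matrix (Fin (q + 1)) (Fin k) ℂ := fun i => Matrix.of (Fin.cons c (D' i))
    let A1 : Matrix (Fin (q + 1)) (Fin (q + 1)) K := Matrix.of fun a => Fin.cons (y a) (A a)
    have hrow0 : ∀ i j, ((D1 i).map (algebraMap ℂ K) * P) 0 j = r j := by
      intro i j
      rw [Matrix.mul_apply]
      exact hcP j
    have hdet : ∀ i, minor (D1 i) P * A1.det = minor (D' i) (P * A) := by
      intro i
      rw [← minor_mul, minor, Matrix.det_succ_row_zero, Finset.sum_eq_single 0]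
      · have h1 : ((D1 i).map (algebraMap ℂ K) * (P * A1)) 0 0 = 1 := by
          rw [← Matrix.mul_assoc, Matrix.mul_apply]
          simp only [hrow0]
          rw [← hy, hrf]
          refine Finset.sum_congr rfl fun a _ => ?_
          rw [mul_comm]
          rfl
        rw [h1, Fin.val_zero, pow_zero, one_mul, one_mul, minor]
        rfl
      · intro b _ hb
        obtain ⟨b', rfl⟩ := Fin.exists_succ_eq.2 hb
        have h1 : ((D1 i).map (algebraMap ℂ K) * (P * A1)) 0 b'.succ = 0 := by
          rw [← Matrix.mul_assoc, Matrix.mul_apply]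
          simp only [hrow0]
          rw [← hAr b']
          refine Finset.sum_congr rfl fun a _ => ?_
          rw [mul_comm]
          rfl
        rw [h1, mul_zero, zero_mul]
      · simp
    have hLI1 : LinearIndependent ℂ (fun i => minor (D1 i) P) := by
      have h1 : LinearIndependent ℂ (fun i => minor (D1 i) P * A1.det) := by
        simp only [hdet]
        exact hD'
      rw [Fintype.linearIndependent_iff] at h1 ⊢
      intro g hg
      apply h1
      simp only [← smul_mul_assoc, ← Finset.sum_mul, hg, zero_mul]
    -- the new minor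
    let D0 : Matrix (Fin (q + 1)) (Fin k) ℂ := Matrix.of fun i => Pi.single (e i) 1
    have hD0 : minor D0 P = 1 := by
      rw [minor]
      have : D0.map (algebraMap ℂ K) * P = 1 := by
        rw [← hPe]
        ext i j
        rw [Matrix.mul_apply, Finset.sum_eq_single (e i)]
        · change algebraMap ℂ K ((Pi.single (e i) 1 : Fin k → ℂ) (e i)) * P (e i) j = P (e i) j
          rw [Pi.single_eq_same, map_one, one_mul]
        · intro a _ ha
          change algebraMap ℂ K ((Pi.single (e i) 1 : Fin k → ℂ) a) * P a j = 0
          rw [Pi.single_eq_of_ne ha, map_zero, zero_mul]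
        · simp
      rw [this, Matrix.det_one]
    have hlt : ∀ i, v.val (minor (D1 i) P) < 1 := by
      intro i
      rw [minor, Matrix.det_succ_row_zero]
      refine Valuation.map_sum_lt _ one_ne_zero fun j _ => ?_
      rw [map_mul, map_mul, hrow0]
      have h1 : v.val ((-1 : K) ^ (j : ℕ)) = 1 := by
        rw [map_pow, Valuation.map_neg, map_one, one_pow]
      rw [h1, one_mul]
      refine mul_lt_one_of_lt_of_le (hrv j) ?_
      apply v.val_det_le_one
      intro a b
      rw [Matrix.submatrix_apply, Matrix.mul_apply]
      refine Valuation.map_sum_le _ fun p _ => ?_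
      rw [map_mul]
      exact mul_le_one' (v.const_le _) (hPreg _ _)
    let W : Submodule ℂ K :=
      { carrier := {z | v.val z < 1}
        add_mem' := by
          intro a b ha hb
          change v.val (a + b) < 1
          exact Valuation.map_add_lt _ ha hb
        zero_mem' := by
          change v.val 0 < 1
          rw [map_zero]
          exact zero_lt_one
        smul_mem' := by
          intro c z hz
          change v.val (c • z) < 1
          rw [Algebra.smul_def, map_mul]
          exact (mul_le_of_le_one_left' (v.const_le c)).trans_lt hz }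
    have hLI : LinearIndependent ℂ (Fin.cons (minor D0 P) fun i => minor (D1 i) P :
        Fin (q + 1 + 1) → K) := by
      rw [linearIndependent_finCons]
      refine ⟨hLI1, fun hmem => ?_⟩
      have h1 : Submodule.span ℂ (Set.range fun i => minor (D1 i) P) ≤ W := by
        rw [Submodule.span_le]
        rintro _ ⟨i, rfl⟩
        exact hlt i
      have h2 : v.val (minor D0 P) < 1 := h1 hmem
      rw [hD0, map_one] at h2
      exact lt_irrefl _ h2
    refine ⟨Fin.cons D0 D1, ?_⟩
    have h1 : ∀ i, minor ((Fin.cons D0 D1 : Fin (q + 1 + 1) → Matrix (Fin (q + 1)) (Fin k) ℂ) i) B =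
        (Fin.cons (minor D0 P) (fun i => minor (D1 i) P) : Fin (q + 1 + 1) → K) i * M.det := by
      intro i
      conv_lhs => rw [hBP]
      rw [minor_mul]
      congr 1
      refine Fin.cases ?_ (fun i => ?_) i
      · rfl
      · rfl
    simp only [h1]
    rw [Fintype.linearIndependent_iff] at hLI ⊢
    intro g hg
    apply hLI
    simp only [← smul_mul_assoc, ← Finset.sum_mul] at hg
    exact (mul_eq_zero.1 hg).resolve_right hM0

end Pool.Agent.W525.BA
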